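import Pool.Agent.Helper36.TW.Kum2

/-!
# Project TW (MP_2ae8fe_ag): arbitrary families over the twists of a product of elliptic curves

For every squarefree `d` a set `I d` of multihomogeneous polynomials in `ζ s`, `(p i, q i)` and `w i`
(`w i` has degree `2` in the `i`-th grading, `d (w i)² = quartic (p i) (q i)`); modulo `d` the set `I d`
contains a fixed set `I0` of polynomials in `ζ`, `p`, `q`.
-/

set_option autoImplicit false

namespace Pool.Agent.Helper36.TW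

open Finset Pool.Agent.Helper11.TW

/-- the variables -/
abbrev FVars (n : ℕ) (σ : Type) : Type := σ ⊕ ((Fin n × Fin 2) ⊕ Fin n)

/-- `G` is homogeneous in the variables `ζ s` and multihomogeneous: `ζ s` has degree `k s i`, `p i` and
`q i` have degree `1`, `w i` has degree `2` in the `i`-th grading. -/
def FMulti {n : ℕ} {σ : Type} [Fintype σ] (k : σ → Fin n → ℕ) (G : MvPolynomial (FVars n σ) ℤ) :
    Prop :=
  ∃ (D : ℕ) (δ : Fin n → ℕ), ∀ μ ∈ G.support, (∑ s, μ (Sum.inl s) = D) ∧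
    ∀ i, (∑ s, μ (Sum.inl s) * k s i) + μ (Sum.inr (Sum.inl (i, 0))) +
      μ (Sum.inr (Sum.inl (i, 1))) + 2 * μ (Sum.inr (Sum.inr i)) = δ i

/-- the values of the variables -/
def fval {n : ℕ} {σ : Type} {R : Type*} (ζ : σ → R) (p q w : Fin n → R) : FVars n σ → R :=
  Sum.elim ζ (Sum.elim (fun j : Fin n × Fin 2 => ![p j.1, q j.1] j.2) w)

/-- The point satisfies all equations in `I`. -/
def FSol {n : ℕ} {σ : Type} {R : Type*} [CommRing R] (I : Set (MvPolynomial (FVars n σ) ℤ))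
    (ζ : σ → R) (p q w : Fin n → R) : Prop :=
  ∀ G ∈ I, MvPolynomial.aeval (fval ζ p q w) G = 0

/-- `G` is congruent modulo `d` to the polynomial `G0`, which does not contain the variables `w i`. -/
def FCong {n : ℕ} {σ : Type} (d : ℤ) (G : MvPolynomial (FVars n σ) ℤ)
    (G0 : MvPolynomial (σ ⊕ (Fin n × Fin 2)) ℤ) : Prop :=
  ∃ H : MvPolynomial (FVars n σ) ℤ,
    G = MvPolynomial.rename (Sum.map id Sum.inl) G0 + MvPolynomial.C d * H

theorem fprod_scale {n : ℕ} {σ : Type} [Fintype σ] {R : Type*} [CommRing R] (k : σ → Fin n → ℕ)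
    (ζ : σ → R) (p q w : Fin n → R) (c : R) (lam : Fin n → R)
    (μ : FVars n σ →₀ ℕ) {D : ℕ} {δ : Fin n → ℕ} (h1 : ∑ s, μ (Sum.inl s) = D)
    (h2 : ∀ i, (∑ s, μ (Sum.inl s) * k s i) + μ (Sum.inr (Sum.inl (i, 0))) +
      μ (Sum.inr (Sum.inl (i, 1))) + 2 * μ (Sum.inr (Sum.inr i)) = δ i) :
    ∏ x, fval (fun s => c * (∏ i, lam i ^ k s i) * ζ s) (fun i => lam i * p i)
        (fun i => lam i * q i) (fun i => lam i ^ 2 * w i) x ^ μ x =
      c ^ D * (∏ i, lam i ^ δ i) * ∏ x, fval ζ p q w x ^ μ x := by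
  have e1 : ∀ (f : FVars n σ → R), ∏ x, f x = (∏ s, f (Sum.inl s)) *
      ((∏ i, f (Sum.inr (Sum.inl (i, 0))) * f (Sum.inr (Sum.inl (i, 1)))) *
        ∏ i, f (Sum.inr (Sum.inr i))) := by
    intro f
    rw [Fintype.prod_sum_type, Fintype.prod_sum_type, Fintype.prod_prod_type]
    congr 2
    refine Finset.prod_congr rfl fun i _ => ?_
    rw [Fin.prod_univ_two]
  rw [e1, e1]
  simp only [fval, Sum.elim_inl, Sum.elim_inr, Matrix.cons_val_zero, Matrix.cons_val_one]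
  simp only [mul_pow, Finset.prod_mul_distrib]
  have e2 : ∏ s, c ^ μ (Sum.inl s) = c ^ D := by
    rw [Finset.prod_pow_eq_pow_sum, h1]
  have e3 : ∏ i, lam i ^ δ i = (∏ s, (∏ i, lam i ^ k s i) ^ μ (Sum.inl s)) *
      (∏ i, lam i ^ μ (Sum.inr (Sum.inl (i, 0)))) * (∏ i, lam i ^ μ (Sum.inr (Sum.inl (i, 1)))) *
      (∏ i, (lam i ^ 2) ^ μ (Sum.inr (Sum.inr i))) := by
    have f1 : ∏ s, (∏ i, lam i ^ k s i) ^ μ (Sum.inl s) =
        ∏ i, lam i ^ (∑ s, μ (Sum.inl s) * k s i) := by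
      rw [Finset.prod_congr rfl fun s _ => (Finset.prod_pow _ _ _).symm, Finset.prod_comm]
      refine Finset.prod_congr rfl fun i _ => ?_
      rw [← Finset.prod_pow_eq_pow_sum]
      refine Finset.prod_congr rfl fun s _ => ?_
      rw [← pow_mul, mul_comm]
    have f2 : ∏ i, (lam i ^ 2) ^ μ (Sum.inr (Sum.inr i)) =
        ∏ i, lam i ^ (2 * μ (Sum.inr (Sum.inr i))) := by
      refine Finset.prod_congr rfl fun i _ => ?_
      rw [← pow_mul]
    rw [f1, f2, ← Finset.prod_mul_distrib, ← Finset.prod_mul_distrib,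
      ← Finset.prod_mul_distrib]
    refine Finset.prod_congr rfl fun i _ => ?_
    rw [← pow_add, ← pow_add, ← pow_add, ← h2 i]
  rw [e2, e3]
  ring

/-- Multihomogeneity: scaling of the coordinates. -/
theorem fsol_scale {n : ℕ} {σ : Type} [Fintype σ] {R : Type*} [CommRing R] (k : σ → Fin n → ℕ)
    (I : Set (MvPolynomial (FVars n σ) ℤ)) (hI : ∀ G ∈ I, FMulti k G)
    (ζ : σ → R) (p q w : Fin n → R) (c : R) (lam : Fin n → R)
    (h : FSol I ζ p q w) :
    FSol I (fun s => c * (∏ i, lam i ^ k s i) * ζ s) (fun i => lam i * p i)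
      (fun i => lam i * q i) (fun i => lam i ^ 2 * w i) := by
  intro G hG
  obtain ⟨D, δ, hδ⟩ := hI G hG
  have h0 := h G hG
  rw [MvPolynomial.aeval_def, MvPolynomial.eval₂_eq'] at h0 ⊢
  have h1 : ∀ μ ∈ G.support, (algebraMap ℤ R) (MvPolynomial.coeff μ G) *
      ∏ x, fval (fun s => c * (∏ i, lam i ^ k s i) * ζ s) (fun i => lam i * p i)
        (fun i => lam i * q i) (fun i => lam i ^ 2 * w i) x ^ μ x =
      (c ^ D * ∏ i, lam i ^ δ i) * ((algebraMap ℤ R) (MvPolynomial.coeff μ G) *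
        ∏ x, fval ζ p q w x ^ μ x) := by
    intro μ hμ
    rw [fprod_scale k ζ p q w c lam μ (hδ μ hμ).1 (hδ μ hμ).2]
    ring
  rw [Finset.sum_congr rfl h1, ← Finset.mul_sum, h0, mul_zero]

theorem fsol_cast {n : ℕ} {σ : Type} (I : Set (MvPolynomial (FVars n σ) ℤ)) (ζ : σ → ℤ)
    (p q w : Fin n → ℤ) (R : Type) [CommRing R] (h : FSol I ζ p q w) :
    FSol I (fun s => (ζ s : R)) (fun i => (p i : R)) (fun i => (q i : R))
      (fun i => (w i : R)) := by
  intro G hG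
  have h1 := congrArg (algebraMap ℤ R) (h G hG)
  rw [← MvPolynomial.aeval_algebraMap_apply, map_zero] at h1
  rw [← h1]
  congr 2
  funext x
  rcases x with s | ⟨i, j⟩ | j
  · rfl
  · fin_cases j <;> rfl
  · rfl

theorem fsol_of_cast {n : ℕ} {σ : Type} (I : Set (MvPolynomial (FVars n σ) ℤ)) (ζ : σ → ℤ)
    (p q w : Fin n → ℤ)
    (h : FSol I (fun s => (ζ s : ℚ)) (fun i => (p i : ℚ)) (fun i => (q i : ℚ))
      (fun i => (w i : ℚ))) : FSol I ζ p q w := by
  intro G hG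
  have h1 := h G hG
  have h2 : (algebraMap ℤ ℚ) (MvPolynomial.aeval (fval ζ p q w) G) = 0 := by
    rw [← MvPolynomial.aeval_algebraMap_apply, ← h1]
    congr 2
    funext x
    rcases x with s | ⟨i, j⟩ | j
    · rfl
    · fin_cases j <;> rfl
    · rfl
  exact (FaithfulSMul.algebraMap_injective ℤ ℚ) (h2.trans (map_zero _).symm)

/-- A rational point has integral coordinates which are primitive. -/
theorem fexists_integral {n : ℕ} {σ : Type} [Fintype σ] (a : Fin n → Fin 3 → ℤ)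
    (k : σ → Fin n → ℕ) (I : Set (MvPolynomial (FVars n σ) ℤ)) (hI : ∀ G ∈ I, FMulti k G) (d : ℤ)
    (hd : Squarefree d) (ζ : σ → ℚ) (hζ : ζ ≠ 0) (p q w : Fin n → ℚ)
    (hpq : ∀ i, p i ≠ 0 ∨ q i ≠ 0)
    (hw : ∀ i, (d : ℚ) * w i ^ 2 = q i * (p i - a i 0 * q i) * (p i - a i 1 * q i) *
      (p i - a i 2 * q i))
    (h : FSol I ζ p q w) :
    ∃ (ζ' : σ → ℤ) (p' q' w' : Fin n → ℤ), FSol I ζ' p' q' w' ∧
      (∀ i, IsCoprime (p' i) (q' i) ∧ d * w' i ^ 2 = quartic (a i) (p' i) (q' i)) ∧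
      ∀ r : ℕ, r.Prime → ∃ s, ¬ (r : ℤ) ∣ ζ' s := by
  choose lam P Q hlam hP hQ hcop using fun i => exists_coprime (p i) (q i) (hpq i)
  have hquart : ∀ i, (d : ℚ) * (lam i ^ 2 * w i) ^ 2 = (quartic (a i) (P i) (Q i) : ℤ) := by
    intro i
    unfold quartic
    push_cast
    rw [← hP i, ← hQ i]
    have := hw i
    calc (d : ℚ) * (lam i ^ 2 * w i) ^ 2 = lam i ^ 4 * ((d : ℚ) * w i ^ 2) := by ring
      _ = _ := by rw [this]; ring
  choose W hW using fun i => integral_of_sq hd (hquart i)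
  have h1 := fsol_scale k I hI ζ p q _ 1 lam h
  have hne : (fun s => (1 : ℚ) * (∏ i, lam i ^ k s i) * ζ s) ≠ 0 := by
    intro h0
    apply hζ
    funext s
    have := congrFun h0 s
    have h3 : (∏ i, lam i ^ k s i) ≠ 0 :=
      Finset.prod_ne_zero_iff.2 fun i _ => pow_ne_zero _ (hlam i)
    simpa [h3] using this
  obtain ⟨c, z, hc, hz, hr⟩ := exists_primitive _ hne
  have h2 := fsol_scale k I hI _ _ _ _ c (fun _ => 1) h1
  refine ⟨z, P, Q, W, ?_, fun i => ⟨hcop i, ?_⟩, hr⟩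
  · apply fsol_of_cast
    have e1 : (fun s => (z s : ℚ)) =
        fun s => c * (∏ i : Fin n, (1 : ℚ) ^ k s i) * ((1 : ℚ) * (∏ i, lam i ^ k s i) * ζ s) := by
      funext s
      rw [← hz s]
      simp
    have e2 : (fun i => (P i : ℚ)) = fun i => 1 * (lam i * p i) := by
      funext i; rw [← hP i, one_mul]
    have e3 : (fun i => (Q i : ℚ)) = fun i => 1 * (lam i * q i) := by
      funext i; rw [← hQ i, one_mul]
    have e4 : (fun i => (W i : ℚ)) = fun i => (1 : ℚ) ^ 2 * (lam i ^ 2 * w i) := by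
      funext i
      rw [hW i]
      ring
    rw [e1, e2, e3, e4]
    exact h2
  · have h3 := hquart i
    rw [← hW i] at h3
    exact_mod_cast h3

/-- the point modulo `r` in the coordinates `rep` -/
theorem exists_unit_scale (a : Fin 3 → ℤ) (p q : ℤ) (hpq : IsCoprime p q) (r : ℕ) (hr : r.Prime)
    (ε : Option (Fin 3)) (hε : (r : ℤ) ∣ lin a ε p q) :
    ∃ u : ZMod r, u ≠ 0 ∧ u * (p : ZMod r) = ((rep a ε).1 : ZMod r) ∧
      u * (q : ZMod r) = ((rep a ε).2 : ZMod r) := by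
  have : Fact r.Prime := ⟨hr⟩
  rcases ε with _ | j
  · simp only [lin] at hε
    have hq : ((q : ℤ) : ZMod r) = 0 := (ZMod.intCast_zmod_eq_zero_iff_dvd _ r).2 hε
    have hp : ((p : ℤ) : ZMod r) ≠ 0 := by
      intro h4
      have h5 := (ZMod.intCast_zmod_eq_zero_iff_dvd _ r).1 h4
      have h6 := hpq.isUnit_of_dvd' h5 hε
      have h7 := Int.isUnit_iff.1 h6
      have := hr.one_lt
      omega
    refine ⟨(p : ZMod r)⁻¹, inv_ne_zero hp, ?_, ?_⟩
    · simp [rep, inv_mul_cancel₀ hp]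
    · simp [rep, hq]
  · simp only [lin] at hε
    have hpq' : ((p : ℤ) : ZMod r) = (a j : ZMod r) * (q : ZMod r) := by
      have := (ZMod.intCast_zmod_eq_zero_iff_dvd _ r).2 hε
      push_cast at this
      exact sub_eq_zero.1 this
    have hq : ((q : ℤ) : ZMod r) ≠ 0 := by
      intro h4
      have h5 := (ZMod.intCast_zmod_eq_zero_iff_dvd _ r).1 h4
      have h5' : (r : ℤ) ∣ p := by
        rw [h4, mul_zero] at hpq'
        exact (ZMod.intCast_zmod_eq_zero_iff_dvd _ r).1 hpq'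
      have h6 := hpq.isUnit_of_dvd' h5' h5
      have h7 := Int.isUnit_iff.1 h6
      have := hr.one_lt
      omega
    refine ⟨(q : ZMod r)⁻¹, inv_ne_zero hq, ?_, ?_⟩
    · rw [hpq']
      simp only [rep]
      field_simp
    · simp [rep, inv_mul_cancel₀ hq]

/-- If the point reduces modulo `r ∣ d` to the branch point `ε`, the fibre of the fixed scheme `I0`
over `ε` has a point modulo `r`. -/
theorem fnot_noPoint {n : ℕ} {σ : Type} [Fintype σ] (a : Fin n → Fin 3 → ℤ)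
    (k : σ → Fin n → ℕ) (I : Set (MvPolynomial (FVars n σ) ℤ)) (hI : ∀ G ∈ I, FMulti k G)
    (I0 : Set (MvPolynomial (σ ⊕ (Fin n × Fin 2)) ℤ)) (d : ℤ)
    (hI0 : ∀ G0 ∈ I0, ∃ G ∈ I, FCong d G G0)
    (ζ : σ → ℤ) (p q w : Fin n → ℤ) (h : FSol I ζ p q w)
    (hpq : ∀ i, IsCoprime (p i) (q i))
    (r : ℕ) (hr : r.Prime) (hrd : (r : ℤ) ∣ d) (hζ : ∃ s, ¬ (r : ℤ) ∣ ζ s)
    (ε : Fin n → Option (Fin 3))
    (hε : ∀ i, (r : ℤ) ∣ lin (a i) (ε i) (p i) (q i)) : ¬ NoPoint a I0 ε r := by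
  have : Fact r.Prime := ⟨hr⟩
  intro hno
  have h1 := fsol_cast I ζ p q w (ZMod r) h
  have hd0 : ((d : ℤ) : ZMod r) = 0 := (ZMod.intCast_zmod_eq_zero_iff_dvd d r).2 hrd
  choose u hu0 hu1 hu2 using fun i => exists_unit_scale (a i) (p i) (q i) (hpq i) r hr (ε i) (hε i)
  have h3 := fsol_scale k I hI _ _ _ _ 1 u h1
  have h4 := hno (fun s => 1 * (∏ i, u i ^ k s i) * (ζ s : ZMod r)) (by
    intro G0 hG0
    obtain ⟨G, hG, H, hH⟩ := hI0 G0 hG0
    have h5 := h3 G hG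
    rw [hH, map_add, map_mul, MvPolynomial.aeval_rename] at h5
    have h6 : (MvPolynomial.aeval (fval (fun s => 1 * (∏ i, u i ^ k s i) * (ζ s : ZMod r))
        (fun i => u i * (p i : ZMod r)) (fun i => u i * (q i : ZMod r))
        (fun i => u i ^ 2 * (w i : ZMod r)))) (MvPolynomial.C d : MvPolynomial (FVars n σ) ℤ) = 0 := by
      rw [MvPolynomial.aeval_C]
      exact hd0
    rw [h6, zero_mul, add_zero] at h5
    rw [← h5]
    congr 2
    funext x
    rcases x with s | ⟨i, j⟩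
    · rfl
    · fin_cases j
      · exact (hu1 i).symm
      · exact (hu2 i).symm)
  obtain ⟨s, hs⟩ := hζ
  have h5 := congrFun h4 s
  have h6 : (∏ i, u i ^ k s i) ≠ 0 := Finset.prod_ne_zero_iff.2 fun i _ => pow_ne_zero _ (hu0 i)
  have h7 : (ζ s : ZMod r) ≠ 0 := fun h => hs ((ZMod.intCast_zmod_eq_zero_iff_dvd _ r).1 h)
  simp [h6, h7] at h5

end Pool.Agent.Helper36.TW
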