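import Pool.Agent.Helper36.TW.Defs

/-!
# Project TW (MP_2ae8fe_ag): factorisations of a squarefree number and labellings of its primes
-/

namespace Pool.Agent.Helper36.TW

open Finset

variable {Λ : Type} [Fintype Λ] [DecidableEq Λ]

/-- the factorisation given by a labelling of the primes of `d` -/
def ofLab {d : ℕ} (α : d.primeFactors → Λ) (a : Λ) : ℕ :=
  ∏ r : d.primeFactors, if α r = a then (r : ℕ) else 1

theorem prod_ofLab {d : ℕ} (hd : Squarefree d) (α : d.primeFactors → Λ) :
    ∏ a, ofLab α a = d := by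
  unfold ofLab
  rw [Finset.prod_comm]
  have h1 : ∀ r : d.primeFactors, ∏ a, (if α r = a then (r : ℕ) else 1) = r := by
    intro r
    rw [Finset.prod_ite_eq univ (α r) (fun _ => (r : ℕ)), if_pos (mem_univ _)]
  rw [Finset.prod_congr rfl fun r _ => h1 r]
  rw [Finset.prod_coe_sort d.primeFactors (fun r => r)]
  exact Nat.prod_primeFactors_of_squarefree hd

theorem dvd_ofLab {d : ℕ} (α : d.primeFactors → Λ) (a : Λ) (r : d.primeFactors) :
    (r : ℕ) ∣ ofLab α a ↔ α r = a := by
  have hr : (r : ℕ).Prime := Nat.prime_of_mem_primeFactors r.2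
  constructor
  · intro h
    unfold ofLab at h
    obtain ⟨s, -, hs⟩ := (hr.prime.dvd_finsetProd_iff _).1 h
    split_ifs at hs with h1
    · have hsp : (s : ℕ).Prime := Nat.prime_of_mem_primeFactors s.2
      have : (r : ℕ) = s := (Nat.prime_dvd_prime_iff_eq hr hsp).1 hs
      rw [Subtype.ext this]; exact h1
    · exact absurd (Nat.dvd_one.1 hs) hr.one_lt.ne'
  · intro h
    unfold ofLab
    have h1 : (if α r = a then (r : ℕ) else 1) ∣ ∏ r : d.primeFactors, if α r = a then (r : ℕ) else 1 :=
      Finset.dvd_prod_of_mem (fun r : d.primeFactors => if α r = a then (r : ℕ) else 1) (mem_univ r)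
    rwa [if_pos h] at h1

theorem ofLab_primeFactors {d : ℕ} (α : d.primeFactors → Λ) (a : Λ) :
    (ofLab α a).primeFactors = (univ.filter fun r : d.primeFactors => α r = a).image (fun r : d.primeFactors => (r : ℕ)) := by
  ext p
  rw [mem_image]
  constructor
  · intro h
    have hp := Nat.prime_of_mem_primeFactors h
    have h2 := Nat.dvd_of_mem_primeFactors h
    unfold ofLab at h2
    obtain ⟨s, -, hs⟩ := (hp.prime.dvd_finsetProd_iff _).1 h2
    split_ifs at hs with h1
    · have hsp : (s : ℕ).Prime := Nat.prime_of_mem_primeFactors s.2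
      exact ⟨s, mem_filter.2 ⟨mem_univ _, h1⟩, ((Nat.prime_dvd_prime_iff_eq hp hsp).1 hs).symm⟩
    · exact absurd (Nat.dvd_one.1 hs) hp.one_lt.ne'
  · rintro ⟨r, hr, rfl⟩
    rw [Nat.mem_primeFactors]
    refine ⟨Nat.prime_of_mem_primeFactors r.2, (dvd_ofLab α a r).2 (mem_filter.1 hr).2, ?_⟩
    unfold ofLab
    rw [Finset.prod_ne_zero_iff]
    intro s _
    split_ifs
    · exact (Nat.prime_of_mem_primeFactors s.2).ne_zero
    · exact one_ne_zero

/-- **Bridge lemma.** -/
theorem sum_fact {d : ℕ} (hd : Squarefree d) (Ψ : (Λ → ℕ) → ℝ) :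
    ∑ D ∈ fact Λ d, Ψ D = ∑ α : d.primeFactors → Λ, Ψ (ofLab α) := by
  classical
  have hd0 : d ≠ 0 := hd.ne_zero
  symm
  refine Finset.sum_bij (fun α _ => ofLab α) ?_ ?_ ?_ ?_
  · intro α _
    rw [mem_fact hd0]
    exact prod_ofLab hd α
  · intro α _ β _ h
    funext r
    have h1 : (r : ℕ) ∣ ofLab β (α r) := by
      have : ofLab α = ofLab β := h
      rw [← this]
      exact (dvd_ofLab α (α r) r).2 rfl
    exact ((dvd_ofLab β (α r) r).1 h1).symm
  · intro D hD
    rw [mem_fact hd0] at hD
    have h1 : ∀ r : d.primeFactors, ∃ a, (r : ℕ) ∣ D a := by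
      intro r
      have hr : (r : ℕ).Prime := Nat.prime_of_mem_primeFactors r.2
      have h2 : (r : ℕ) ∣ ∏ a, D a := by rw [hD]; exact Nat.dvd_of_mem_primeFactors r.2
      obtain ⟨a, -, ha⟩ := (hr.prime.dvd_finsetProd_iff _).1 h2
      exact ⟨a, ha⟩
    choose α hα using h1
    refine ⟨α, mem_univ _, ?_⟩
    funext a
    have hDa : Squarefree (D a) := by
      refine Squarefree.squarefree_of_dvd ?_ hd
      rw [← hD]
      exact Finset.dvd_prod_of_mem D (mem_univ a)
    have huniq : ∀ (r : d.primeFactors) (b : Λ), (r : ℕ) ∣ D b → α r = b := by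
      intro r b hb
      by_contra hne
      have hr : (r : ℕ).Prime := Nat.prime_of_mem_primeFactors r.2
      have h3 : (r : ℕ) * r ∣ ∏ a, D a := by
        have h4 : D (α r) * D b ∣ ∏ a, D a := by
          rw [← Finset.prod_pair hne]
          exact Finset.prod_dvd_prod_of_subset _ _ D (subset_univ _)
        exact (Nat.mul_dvd_mul (hα r) hb).trans h4
      rw [hD] at h3
      have := hd _ h3
      exact hr.one_lt.ne' (Nat.isUnit_iff.1 this)
    have hpf : (D a).primeFactors = (ofLab α a).primeFactors := by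
      rw [ofLab_primeFactors]
      ext p
      rw [mem_image]
      constructor
      · intro hp
        have hpd : p ∈ d.primeFactors := by
          rw [Nat.mem_primeFactors]
          refine ⟨Nat.prime_of_mem_primeFactors hp, ?_, hd0⟩
          rw [← hD]
          exact (Nat.dvd_of_mem_primeFactors hp).trans (Finset.dvd_prod_of_mem D (mem_univ a))
        exact ⟨⟨p, hpd⟩, mem_filter.2 ⟨mem_univ _, huniq _ _ (Nat.dvd_of_mem_primeFactors hp)⟩, rfl⟩
      · rintro ⟨r, hr, rfl⟩
        rw [Nat.mem_primeFactors]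
        refine ⟨Nat.prime_of_mem_primeFactors r.2, ?_, hDa.ne_zero⟩
        rw [← (mem_filter.1 hr).2]
        exact hα r
    have hsq2 : Squarefree (ofLab α a) := by
      refine Squarefree.squarefree_of_dvd ?_ hd
      conv_rhs => rw [← prod_ofLab hd α]
      exact Finset.dvd_prod_of_mem (ofLab α) (mem_univ a)
    rw [← Nat.prod_primeFactors_of_squarefree hDa, ← Nat.prod_primeFactors_of_squarefree hsq2, hpf]
  · intro α _
    rfl

theorem W_ofLab {d : ℕ} (v : Λ → ℕ → ℝ) (α : d.primeFactors → Λ) (a : Λ) :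
    W v a (ofLab α a) = ∏ r : d.primeFactors, if α r = a then v a r else 1 := by
  unfold W
  rw [ofLab_primeFactors, Finset.prod_image (fun x _ y _ h => Subtype.ext h), Finset.prod_filter]

theorem prod_W_ofLab {d : ℕ} (v : Λ → ℕ → ℝ) (α : d.primeFactors → Λ) :
    ∏ a, W v a (ofLab α a) = ∏ r : d.primeFactors, v (α r) r := by
  rw [Finset.prod_congr rfl fun a _ => W_ofLab v α a, Finset.prod_comm]
  refine Finset.prod_congr rfl fun r _ => ?_
  rw [Finset.prod_ite_eq univ (α r) (fun a => v a r), if_pos (mem_univ _)]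

/-- **Expansion lemma.** -/
theorem sum_prod_W {d : ℕ} (hd : Squarefree d) (v : Λ → ℕ → ℝ) :
    ∑ D ∈ fact Λ d, ∏ a, W v a (D a) = ∏ r ∈ d.primeFactors, ∑ a, v a r := by
  rw [sum_fact hd, Finset.sum_congr rfl fun α _ => prod_W_ofLab v α]
  rw [← Finset.prod_coe_sort d.primeFactors (fun r => ∑ a, v a r)]
  rw [Finset.prod_univ_sum]
  refine Finset.sum_congr ?_ fun _ _ => rfl
  ext α
  simp

end Pool.Agent.Helper36.TW
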