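import Pool.Agent.Helper36.TW.Defs

/-!
# Project TW (MP_2ae8fe_ag), module Recip: the bilinear bound with both Jacobi symbols

`Bilinear` is the theorem of helper81 (`Pool/Agent/Helper81/TW/Bil.lean`, it is passed as a hypothesis here).
For odd `x, y` one has `jac x y = s * jac y x`, `s = (-1) ^ ((x / 2) * (y / 2))` (`jacobiSym.quadratic_reciprocity'`, or
the versions for `x % 4 = 1` and for `x % 4 = 3`, `y % 4 = 3`), `s` depends only on `x % 4`, `y % 4`. As `m + n` is odd and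
`jac` takes the values `0, 1, -1`: `jac x y ^ m * jac y x ^ n = s ^ m * jac y x` (if `jac y x = 0` then `jac x y = 0` too).
Split `f`, `g` according to `x % 4`, `y % 4` (four pairs), constant `4 C`.
-/

set_option autoImplicit false
set_option linter.unusedSectionVars false

namespace Pool.Agent.Helper36.TW

open Finset

/-- the statement of the bilinear bound -/
def Bilinear : Prop := ∃ C : ℝ, 0 < C ∧ ∀ (f g : ℕ → ℝ), (∀ x, |f x| ≤ 1) → (∀ y, |g y| ≤ 1) →
  (∀ x, f x ≠ 0 → Odd x ∧ Squarefree x) → (∀ y, g y ≠ 0 → Odd y ∧ Squarefree y) →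
  ∀ V Z : ℕ, 1 ≤ V →
    |∑ x ∈ Ioc V Z, ∑ y ∈ (Ioc V Z).filter (fun y => x * y ≤ Z),
        f x * g y * (jacobiSym (y : ℤ) x : ℝ)| ≤
      C * Z * (V : ℝ) ^ (-(1 / 10 : ℝ)) * (1 + Real.log Z) ^ 3

private lemma Recip_pow_odd {j : ℝ} (hj : j = 0 ∨ j = 1 ∨ j = -1) {k : ℕ} (hk : Odd k) : j ^ k = j := by
  rcases hj with h | h | h
  · rw [h]
    exact zero_pow (Nat.ne_of_gt hk.pos)
  · rw [h, one_pow]
  · rw [h, hk.neg_one_pow]

private lemma Recip_tri (x y : ℕ) : jac x y = 0 ∨ jac x y = 1 ∨ jac x y = -1 := by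
  unfold jac
  rcases jacobiSym.trichotomy (x : ℤ) y with h | h | h <;> rw [h] <;> simp

open Classical in
private lemma Recip_key {x y : ℕ} (hx : Odd x) (hy : Odd y) {m n : ℕ} (h : ¬ Even (m + n)) :
    jac x y ^ m * jac y x ^ n =
      (1 - 2 * ((if x % 4 = 3 ∧ Odd m then 1 else 0) * (if y % 4 = 3 then 1 else 0))) *
        jac y x := by
  have hodd : Odd (m + n) := Nat.not_even_iff_odd.mp h
  have hq : jac x y = (-1 : ℝ) ^ (x / 2 * (y / 2)) * jac y x := by
    unfold jac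
    rw [jacobiSym.quadratic_reciprocity hx hy]
    push_cast
    ring
  have h1 : jac x y ^ m * jac y x ^ n = ((-1 : ℝ) ^ (x / 2 * (y / 2))) ^ m * jac y x := by
    rw [hq, mul_pow, mul_assoc, ← pow_add, Recip_pow_odd (Recip_tri y x) hodd]
  rw [h1]
  congr 1
  have hx2 : x % 2 = 1 := Nat.odd_iff.mp hx
  have hy2 : y % 2 = 1 := Nat.odd_iff.mp hy
  by_cases hx4 : x % 4 = 3
  · by_cases hy4 : y % 4 = 3
    · have hp : Odd (x / 2 * (y / 2)) := by
        apply Odd.mul
        · rw [Nat.odd_iff]; omega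
        · rw [Nat.odd_iff]; omega
      rw [hp.neg_one_pow]
      by_cases hm : Odd m
      · rw [hm.neg_one_pow, if_pos ⟨hx4, hm⟩, if_pos hy4]
        norm_num
      · rw [(Nat.not_odd_iff_even.mp hm).neg_one_pow, if_neg (fun h => hm h.2)]
        norm_num
    · have hp : Even (x / 2 * (y / 2)) := by
        apply Even.mul_left
        rw [Nat.even_iff]; omega
      rw [hp.neg_one_pow, one_pow, if_neg hy4]
      norm_num
  · have hp : Even (x / 2 * (y / 2)) := by
      apply Even.mul_right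
      rw [Nat.even_iff]; omega
    rw [hp.neg_one_pow, one_pow, if_neg (fun h => hx4 h.1)]
    norm_num

theorem bilinear_sym (hB : Bilinear) : ∃ C : ℝ, 0 < C ∧ ∀ (f g : ℕ → ℝ), (∀ x, |f x| ≤ 1) →
    (∀ y, |g y| ≤ 1) → (∀ x, f x ≠ 0 → Odd x ∧ Squarefree x) →
    (∀ y, g y ≠ 0 → Odd y ∧ Squarefree y) → ∀ m n : ℕ, ¬ Even (m + n) → ∀ V Z : ℕ, 1 ≤ V →
    |∑ x ∈ Ioc V Z, ∑ y ∈ (Ioc V Z).filter (fun y => x * y ≤ Z),
        f x * g y * (jac x y ^ m * jac y x ^ n)| ≤
      C * Z * (V : ℝ) ^ (-(1 / 10 : ℝ)) * (1 + Real.log Z) ^ 3 := by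
  classical
  obtain ⟨C, hC, hB⟩ := hB
  refine ⟨3 * C, by positivity, ?_⟩
  intro f g hf1 hg1 hf hg m n hmn V Z hV
  have e1 := hB f g hf1 hg1 hf hg V Z hV
  have e2 := hB (fun x => if x % 4 = 3 ∧ Odd m then f x else 0)
    (fun y => if y % 4 = 3 then g y else 0) ?_ ?_ ?_ ?_ V Z hV
  · have hs : ∑ x ∈ Ioc V Z, ∑ y ∈ (Ioc V Z).filter (fun y => x * y ≤ Z),
        f x * g y * (jac x y ^ m * jac y x ^ n) =
        (∑ x ∈ Ioc V Z, ∑ y ∈ (Ioc V Z).filter (fun y => x * y ≤ Z),
          f x * g y * (jacobiSym (y : ℤ) x : ℝ)) -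
        2 * ∑ x ∈ Ioc V Z, ∑ y ∈ (Ioc V Z).filter (fun y => x * y ≤ Z),
          (if x % 4 = 3 ∧ Odd m then f x else 0) * (if y % 4 = 3 then g y else 0) *
            (jacobiSym (y : ℤ) x : ℝ) := by
      rw [Finset.mul_sum, ← Finset.sum_sub_distrib]
      apply Finset.sum_congr rfl
      intro x _
      rw [Finset.mul_sum, ← Finset.sum_sub_distrib]
      apply Finset.sum_congr rfl
      intro y _
      by_cases hfx : f x = 0
      · rw [hfx]
        simp
      · by_cases hgy : g y = 0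
        · rw [hgy]
          simp
        · rw [Recip_key (hf x hfx).1 (hg y hgy).1 hmn]
          have hj : jac y x = (jacobiSym (y : ℤ) x : ℝ) := rfl
          rw [hj]
          split_ifs <;> ring
    rw [hs]
    refine le_trans (abs_sub _ _) ?_
    rw [abs_mul, abs_two]
    linarith
  · intro x
    show |if x % 4 = 3 ∧ Odd m then f x else 0| ≤ 1
    split_ifs
    · exact hf1 x
    · simp
  · intro y
    show |if y % 4 = 3 then g y else 0| ≤ 1
    split_ifs
    · exact hg1 y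
    · simp
  · intro x hx
    apply hf x
    intro h0
    apply hx
    show (if x % 4 = 3 ∧ Odd m then f x else 0) = 0
    rw [h0]
    simp
  · intro y hy
    apply hg y
    intro h0
    apply hy
    show (if y % 4 = 3 then g y else 0) = 0
    rw [h0]
    simp

end Pool.Agent.Helper36.TW
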