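import Pool.Agent.Helper36.TW.Split
import Pool.Agent.Helper36.TW.Recip

/-!
# Project TW (MP_2ae8fe_ag), module CaseI: the set of large labels contains a linked pair

`a ≠ b` in `L` are linked. For `D` in the sum put `R = update (update D a 1) b 1`, `x = D a`, `y = D b`, so
`D = update (update R a x) b y`. For fixed `R` (with product `P ≤ N`, odd squarefree, `R c > V` iff `c ∈ L` for `c ≠ a, b`)
the pairs are: `x, y > V`, `x y ≤ N / P` (natural division is fine), `x`, `y` odd, squarefree, coprime to `P`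
(conditions for `f`, `g`), and `x`, `y` coprime, which may be dropped since `jac x y ^ Φ a b * jac y x ^ Φ b a = 0`
otherwise (the sum of the exponents is odd, `x, y > 1`). `split` and `bilinear_sym` with `Z = N / P` give
`≤ C (N / P) V ^ (-1/10) (1 + log N) ^ 3`, and `∑ R ∏ c, 1 / R c ≤ (∑ x ∈ Icc 1 N, 1 / x) ^ #Λ ≤ (1 + log N) ^ #Λ`
(`Finset.prod_univ_sum`, `harmonic_le_one_add_log`).
-/

set_option autoImplicit false
set_option linter.unusedSectionVars false

namespace Pool.Agent.Helper36.TW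

open Finset

variable {Λ : Type} [Fintype Λ] [DecidableEq Λ]

private theorem caseI_prod {a b : Λ} (hab : a ≠ b) (R : Λ → ℕ) (x y : ℕ) :
    ∏ c, Function.update (Function.update R a x) b y c = x * y * ∏ c ∈ (univ \ {b}) \ {a}, R c := by
  rw [Finset.prod_update_of_mem (mem_univ b), Finset.prod_update_of_mem (by simp [hab])]
  ring

private theorem caseI_self {a b : Λ} (R : Λ → ℕ) (hRa : R a = 1) (hRb : R b = 1) :
    Function.update (Function.update R a 1) b 1 = R := by
  funext c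
  by_cases hb : c = b
  · subst hb; simp [hRb]
  · rw [Function.update_of_ne hb]
    by_cases ha : c = a
    · subst ha; simp [hRa]
    · rw [Function.update_of_ne ha]

private theorem caseI_prod' {a b : Λ} (hab : a ≠ b) (R : Λ → ℕ) (hRa : R a = 1) (hRb : R b = 1)
    (x y : ℕ) :
    ∏ c, Function.update (Function.update R a x) b y c = x * y * ∏ c, R c := by
  have h1 := caseI_prod hab R 1 1
  rw [caseI_self R hRa hRb] at h1
  rw [caseI_prod hab R x y, h1]
  ring

private theorem caseI_jac {x y m n : ℕ} (hx : 1 < x) (hy : 1 < y) (hc : ¬ Nat.Coprime x y)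
    (hmn : ¬ Even (m + n)) : jac x y ^ m * jac y x ^ n = 0 := by
  have h1 : jac x y = 0 := by
    unfold jac
    have : NeZero y := ⟨by omega⟩
    have : jacobiSym (x : ℤ) y = 0 := by
      rw [jacobiSym.eq_zero_iff_not_coprime]
      simpa [Int.gcd_natCast_natCast, Nat.Coprime] using hc
    rw [this]; simp
  have h2 : jac y x = 0 := by
    unfold jac
    have : NeZero x := ⟨by omega⟩
    have : jacobiSym (y : ℤ) x = 0 := by
      rw [jacobiSym.eq_zero_iff_not_coprime]
      have hc' : ¬ Nat.Coprime y x := fun h => hc h.symm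
      simpa [Int.gcd_natCast_natCast, Nat.Coprime] using hc'
    rw [this]; simp
  by_cases hm : m = 0
  · have hn : n ≠ 0 := by
      rintro rfl
      apply hmn
      rw [hm]; exact ⟨0, rfl⟩
    rw [h2, zero_pow hn, mul_zero]
  · rw [h1, zero_pow hm, zero_mul]

private theorem caseI_harm (N : ℕ) : ∑ x ∈ Icc 1 N, (x : ℝ)⁻¹ ≤ 1 + Real.log N := by
  have h := harmonic_le_one_add_log N
  rw [harmonic_eq_sum_Icc] at h
  push_cast at h
  exact h

/-- one fibre -/
private theorem caseI_fibre {C : ℝ} (hC0 : 0 < C) (hC : ∀ (f g : ℕ → ℝ), (∀ x, |f x| ≤ 1) →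
    (∀ y, |g y| ≤ 1) → (∀ x, f x ≠ 0 → Odd x ∧ Squarefree x) →
    (∀ y, g y ≠ 0 → Odd y ∧ Squarefree y) → ∀ m n : ℕ, ¬ Even (m + n) → ∀ V Z : ℕ, 1 ≤ V →
    |∑ x ∈ Ioc V Z, ∑ y ∈ (Ioc V Z).filter (fun y => x * y ≤ Z),
        f x * g y * (jac x y ^ m * jac y x ^ n)| ≤
      C * Z * (V : ℝ) ^ (-(1 / 10 : ℝ)) * (1 + Real.log Z) ^ 3)
    (Φ : Λ → Λ → ℕ) (hΦ : ∀ a, Φ a a = 0) (w : Λ → ℕ → ℝ) (hw : ∀ a r, |w a r| ≤ 1)
    (L : Finset Λ) {a b : Λ} (ha : a ∈ L) (hb : b ∈ L) (hab : a ≠ b)
    (hodd : ¬ Even (Φ a b + Φ b a)) (V N : ℕ) (hV : 1 ≤ V) (hN : 1 ≤ N) (R : Λ → ℕ)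
    (hR : R ∈ Fintype.piFinset fun _ : Λ => Icc 1 N) :
    |∑ D ∈ ((Dset Λ N).filter (fun D => large V D = L)).filter
        (fun D => Function.update (Function.update D a 1) b 1 = R), term Φ w D| ≤
      C * N * (V : ℝ) ^ (-(1 / 10 : ℝ)) * (1 + Real.log N) ^ 3 * ∏ c, ((R c : ℕ) : ℝ)⁻¹ := by
  classical
  have hlogN : 0 ≤ Real.log N := Real.log_natCast_nonneg N
  have hVp : 0 < (V : ℝ) ^ (-(1 / 10 : ℝ)) := by
    apply Real.rpow_pos_of_pos
    exact_mod_cast (by omega : 0 < V)
  have hprodnn : 0 ≤ ∏ c, ((R c : ℕ) : ℝ)⁻¹ := Finset.prod_nonneg fun _ _ => by positivity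
  have hRHS : 0 ≤ C * N * (V : ℝ) ^ (-(1 / 10 : ℝ)) * (1 + Real.log N) ^ 3 *
      ∏ c, ((R c : ℕ) : ℝ)⁻¹ := by
    have : 0 ≤ (1 + Real.log N) ^ 3 := by positivity
    positivity
  rcases Finset.eq_empty_or_nonempty (((Dset Λ N).filter (fun D => large V D = L)).filter
        (fun D => Function.update (Function.update D a 1) b 1 = R)) with hemp | ⟨D0, hD0⟩
  · rw [hemp, Finset.sum_empty, abs_zero]
    exact hRHS
  rw [Fintype.mem_piFinset] at hR
  rw [mem_filter, mem_filter] at hD0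
  obtain ⟨⟨hD0m, hD0L⟩, hD0R⟩ := hD0
  have hRa : R a = 1 := by
    rw [← hD0R, Function.update_of_ne hab, Function.update_self]
  have hRb : R b = 1 := by
    rw [← hD0R, Function.update_self]
  have hRc : ∀ c, c ≠ a → c ≠ b → R c = D0 c := by
    intro c h1 h2
    rw [← hD0R, Function.update_of_ne h2, Function.update_of_ne h1]
  have hRpos : ∀ c, 1 ≤ R c := fun c => (mem_Icc.1 (hR c)).1
  have hRne : ∀ c, R c ≠ 0 := fun c => by have := hRpos c; omega
  set P := ∏ c, R c with hP
  have hPpos : 0 < P := Finset.prod_pos fun c _ => hRpos c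
  have hD0m' := hD0m
  unfold Dset at hD0m'
  rw [mem_filter] at hD0m'
  obtain ⟨hD0pi, hD0sq, hD0odd, hD0le⟩ := hD0m'
  -- `D` in terms of `R`
  have hDeq : ∀ D : Λ → ℕ, Function.update (Function.update D a 1) b 1 = R →
      Function.update (Function.update R a (D a)) b (D b) = D := by
    intro D hD
    funext c
    by_cases h2 : c = b
    · subst h2; simp
    · rw [Function.update_of_ne h2]
      by_cases h1 : c = a
      · subst h1; simp
      · rw [Function.update_of_ne h1, ← hD, Function.update_of_ne h2, Function.update_of_ne h1]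
  have hprodD : ∀ D : Λ → ℕ, Function.update (Function.update D a 1) b 1 = R →
      ∏ c, D c = D a * D b * P := by
    intro D hD
    conv_lhs => rw [← hDeq D hD]
    exact caseI_prod' hab R hRa hRb _ _
  have hPD0 : ∏ c, D0 c = D0 a * D0 b * P := hprodD D0 hD0R
  have hPsq : Squarefree P := by
    apply Squarefree.squarefree_of_dvd _ hD0sq
    rw [hPD0]; exact dvd_mul_left _ _
  have hPodd : Odd P := by
    rw [hPD0] at hD0odd
    exact (Nat.odd_mul.1 hD0odd).2
  set Z := N / P with hZ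
  obtain ⟨K, f, g, hK, hf, hg, hterm⟩ := split Φ hΦ hw hab R hRa hRb hRne
  let f' : ℕ → ℝ := fun x => if Odd x ∧ Squarefree x ∧ Nat.Coprime x P then f x else 0
  let g' : ℕ → ℝ := fun x => if Odd x ∧ Squarefree x ∧ Nat.Coprime x P then g x else 0
  have hf' : ∀ x, |f' x| ≤ 1 := by
    intro x
    simp only [f']
    split_ifs
    · exact hf x
    · simp
  have hg' : ∀ x, |g' x| ≤ 1 := by
    intro x
    simp only [g']
    split_ifs
    · exact hg x
    · simp
  have hf0 : ∀ x, f' x ≠ 0 → Odd x ∧ Squarefree x := by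
    intro x hx
    simp only [f'] at hx
    split_ifs at hx with h
    · exact ⟨h.1, h.2.1⟩
    · exact absurd rfl hx
  have hg0 : ∀ x, g' x ≠ 0 → Odd x ∧ Squarefree x := by
    intro x hx
    simp only [g'] at hx
    split_ifs at hx with h
    · exact ⟨h.1, h.2.1⟩
    · exact absurd rfl hx
  have hmain := hC f' g' hf' hg' hf0 hg0 (Φ a b) (Φ b a) hodd V Z hV
  -- the set of good pairs
  let Q : Finset (ℕ × ℕ) := ((Ioc V Z) ×ˢ (Ioc V Z)).filter (fun q => q.1 * q.2 ≤ Z)
  let good : ℕ × ℕ → Prop := fun q => (Odd q.1 ∧ Squarefree q.1 ∧ Nat.Coprime q.1 P) ∧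
    (Odd q.2 ∧ Squarefree q.2 ∧ Nat.Coprime q.2 P) ∧ Nat.Coprime q.1 q.2
  have e1 : ∑ x ∈ Ioc V Z, ∑ y ∈ (Ioc V Z).filter (fun y => x * y ≤ Z),
        f' x * g' y * (jac x y ^ Φ a b * jac y x ^ Φ b a) =
      ∑ q ∈ Q, f' q.1 * g' q.2 * (jac q.1 q.2 ^ Φ a b * jac q.2 q.1 ^ Φ b a) := by
    simp only [Q]
    rw [Finset.sum_filter, Finset.sum_product]
    refine Finset.sum_congr rfl fun x _ => ?_
    rw [Finset.sum_filter]
  have e2 : ∑ q ∈ Q, f' q.1 * g' q.2 * (jac q.1 q.2 ^ Φ a b * jac q.2 q.1 ^ Φ b a) =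
      ∑ q ∈ Q.filter good, f' q.1 * g' q.2 * (jac q.1 q.2 ^ Φ a b * jac q.2 q.1 ^ Φ b a) := by
    symm
    apply Finset.sum_subset (Finset.filter_subset _ _)
    intro q hq hqn
    have hq' : ¬ good q := fun h => hqn (mem_filter.2 ⟨hq, h⟩)
    simp only [Q, mem_filter, mem_product, mem_Ioc] at hq
    by_cases h1 : Odd q.1 ∧ Squarefree q.1 ∧ Nat.Coprime q.1 P
    · by_cases h2 : Odd q.2 ∧ Squarefree q.2 ∧ Nat.Coprime q.2 P
      · have h3 : ¬ Nat.Coprime q.1 q.2 := fun h3 => hq' ⟨h1, h2, h3⟩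
        rw [caseI_jac (by omega) (by omega) h3 hodd, mul_zero]
      · have : g' q.2 = 0 := by simp only [g']; rw [if_neg h2]
        rw [this]; ring
    · have : f' q.1 = 0 := by simp only [f']; rw [if_neg h1]
      rw [this]; ring
  have e3 : ∑ D ∈ ((Dset Λ N).filter (fun D => large V D = L)).filter
        (fun D => Function.update (Function.update D a 1) b 1 = R), term Φ w D =
      ∑ q ∈ Q.filter good, K * (f' q.1 * g' q.2 * (jac q.1 q.2 ^ Φ a b * jac q.2 q.1 ^ Φ b a)) := by
    refine Finset.sum_nbij' (fun D => (D a, D b))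
      (fun q => Function.update (Function.update R a q.1) b q.2) ?_ ?_ ?_ ?_ ?_
    · intro D hD
      rw [mem_filter, mem_filter] at hD
      obtain ⟨⟨hDm, hDL⟩, hDR⟩ := hD
      unfold Dset at hDm
      rw [mem_filter] at hDm
      obtain ⟨hDpi, hDsq, hDodd, hDle⟩ := hDm
      rw [hprodD D hDR] at hDsq hDodd hDle
      have hDa : V < D a := by
        have : a ∈ large V D := by rw [hDL]; exact ha
        exact (mem_filter.1 this).2
      have hDb : V < D b := by
        have : b ∈ large V D := by rw [hDL]; exact hb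
        exact (mem_filter.1 this).2
      have hxy : D a * D b ≤ Z := by
        rw [hZ, Nat.le_div_iff_mul_le hPpos]
        exact hDle
      rw [Nat.squarefree_mul_iff, Nat.squarefree_mul_iff] at hDsq
      rw [Nat.odd_mul, Nat.odd_mul] at hDodd
      have hcop := Nat.Coprime.coprime_mul_right hDsq.1
      have hcop2 := Nat.Coprime.coprime_mul_left hDsq.1
      rw [mem_filter]
      refine ⟨?_, ⟨hDodd.1.1, hDsq.2.1.2.1, hcop⟩, ⟨hDodd.1.2, hDsq.2.1.2.2, hcop2⟩,
        hDsq.2.1.1⟩
      simp only [Q, mem_filter, mem_product, mem_Ioc]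
      refine ⟨⟨⟨hDa, ?_⟩, hDb, ?_⟩, hxy⟩
      · exact le_trans (Nat.le_mul_of_pos_right _ (by omega)) hxy
      · exact le_trans (Nat.le_mul_of_pos_left _ (by omega)) hxy
    · intro q hq
      rw [mem_filter] at hq
      obtain ⟨hqQ, ⟨hx1, hx2, hx3⟩, ⟨hy1, hy2, hy3⟩, hxy⟩ := hq
      simp only [Q, mem_filter, mem_product, mem_Ioc] at hqQ
      obtain ⟨⟨⟨hVx, hxZ⟩, hVy, hyZ⟩, hle⟩ := hqQ
      have hZN : Z ≤ N := Nat.div_le_self _ _
      have hp := caseI_prod' hab R hRa hRb q.1 q.2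
      rw [← hP] at hp
      rw [mem_filter, mem_filter]
      refine ⟨⟨?_, ?_⟩, ?_⟩
      · unfold Dset
        rw [mem_filter, Fintype.mem_piFinset, hp]
        refine ⟨?_, ?_, ?_, ?_⟩
        · intro c
          rw [mem_Icc]
          by_cases h2 : c = b
          · subst h2
            rw [Function.update_self]
            omega
          · rw [Function.update_of_ne h2]
            by_cases h1 : c = a
            · subst h1
              rw [Function.update_self]
              omega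
            · rw [Function.update_of_ne h1]
              exact mem_Icc.1 (hR c)
        · rw [Nat.squarefree_mul_iff, Nat.squarefree_mul_iff]
          exact ⟨Nat.Coprime.mul_left hx3 hy3, ⟨hxy, hx2, hy2⟩, hPsq⟩
        · rw [Nat.odd_mul, Nat.odd_mul]
          exact ⟨⟨hx1, hy1⟩, hPodd⟩
        · rw [hZ, Nat.le_div_iff_mul_le hPpos] at hle
          exact hle
      · rw [← hD0L]
        ext c
        simp only [large, mem_filter, mem_univ, true_and]
        by_cases h2 : c = b
        · subst h2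
          rw [Function.update_self]
          have : c ∈ large V D0 := by rw [hD0L]; exact hb
          have h3 := (mem_filter.1 this).2
          exact ⟨fun _ => h3, fun _ => hVy⟩
        · rw [Function.update_of_ne h2]
          by_cases h1 : c = a
          · subst h1
            rw [Function.update_self]
            have : c ∈ large V D0 := by rw [hD0L]; exact ha
            have h3 := (mem_filter.1 this).2
            exact ⟨fun _ => h3, fun _ => hVx⟩
          · rw [Function.update_of_ne h1, hRc c h1 h2]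
      · funext c
        by_cases h2 : c = b
        · subst h2; simp [hRb]
        · rw [Function.update_of_ne h2]
          by_cases h1 : c = a
          · subst h1; simp [hRa]
          · rw [Function.update_of_ne h1, Function.update_of_ne h2, Function.update_of_ne h1]
    · intro D hD
      rw [mem_filter] at hD
      exact hDeq D hD.2
    · intro q _
      ext
      · simp [Function.update_of_ne hab]
      · simp
    · intro D hD
      rw [mem_filter, mem_filter] at hD
      obtain ⟨⟨hDm, hDL⟩, hDR⟩ := hD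
      unfold Dset at hDm
      rw [mem_filter, Fintype.mem_piFinset] at hDm
      obtain ⟨hDpi, hDsq, hDodd, hDle⟩ := hDm
      rw [hprodD D hDR] at hDsq hDodd
      have hane : D a ≠ 0 := by have := mem_Icc.1 (hDpi a); omega
      have hbne : D b ≠ 0 := by have := mem_Icc.1 (hDpi b); omega
      rw [Nat.squarefree_mul_iff, Nat.squarefree_mul_iff] at hDsq
      rw [Nat.odd_mul, Nat.odd_mul] at hDodd
      have hcop := Nat.Coprime.coprime_mul_right hDsq.1
      have hcop2 := Nat.Coprime.coprime_mul_left hDsq.1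
      have h1 : f' (D a) = f (D a) := by
        simp only [f']; rw [if_pos ⟨hDodd.1.1, hDsq.2.1.2.1, hcop⟩]
      have h2 : g' (D b) = g (D b) := by
        simp only [g']; rw [if_pos ⟨hDodd.1.2, hDsq.2.1.2.2, hcop2⟩]
      have h3 := hterm (D a) (D b) hane hbne
      rw [hDeq D hDR] at h3
      rw [h3]
      simp only
      rw [h1, h2]
      ring
  rw [e3, ← Finset.mul_sum, ← e2, ← e1, abs_mul]
  have hZle : (Z : ℝ) ≤ N * ∏ c, ((R c : ℕ) : ℝ)⁻¹ := by
    have h1 : ((N / P : ℕ) : ℝ) ≤ (N : ℝ) / P := Nat.cast_div_le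
    rw [Finset.prod_inv_distrib]
    rw [hP] at h1
    push_cast at h1
    rw [hZ, hP]
    simpa [div_eq_mul_inv] using h1
  have hlogZ0 : 0 ≤ Real.log Z := Real.log_natCast_nonneg Z
  have hlogZ : Real.log Z ≤ Real.log N := by
    rcases Nat.eq_zero_or_pos Z with h | h
    · rw [h]; simpa using hlogN
    · apply Real.log_le_log (by exact_mod_cast h)
      exact_mod_cast Nat.div_le_self _ _
  calc |K| * |∑ x ∈ Ioc V Z, ∑ y ∈ (Ioc V Z).filter (fun y => x * y ≤ Z),
        f' x * g' y * (jac x y ^ Φ a b * jac y x ^ Φ b a)|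
      ≤ 1 * (C * Z * (V : ℝ) ^ (-(1 / 10 : ℝ)) * (1 + Real.log Z) ^ 3) := by
        apply mul_le_mul hK hmain (abs_nonneg _) zero_le_one
    _ ≤ C * (N * ∏ c, ((R c : ℕ) : ℝ)⁻¹) * (V : ℝ) ^ (-(1 / 10 : ℝ)) * (1 + Real.log N) ^ 3 := by
        rw [one_mul]
        have hp3 : (1 + Real.log Z) ^ 3 ≤ (1 + Real.log N) ^ 3 :=
          pow_le_pow_left₀ (by linarith) (by linarith) 3
        have hp4 : 0 ≤ (1 + Real.log Z) ^ 3 := by positivity
        apply mul_le_mul _ hp3 hp4 (by positivity)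
        apply mul_le_mul_of_nonneg_right _ hVp.le
        exact mul_le_mul_of_nonneg_left hZle hC0.le
    _ = C * N * (V : ℝ) ^ (-(1 / 10 : ℝ)) * (1 + Real.log N) ^ 3 * ∏ c, ((R c : ℕ) : ℝ)⁻¹ := by
        ring

theorem caseI (hB : Bilinear) : ∃ C : ℝ, 0 < C ∧ ∀ (Φ : Λ → Λ → ℕ), (∀ a, Φ a a = 0) →
    ∀ (w : Λ → ℕ → ℝ), (∀ a r, |w a r| ≤ 1) → ∀ (L : Finset Λ), ¬ Unlinked Φ L →
    ∀ V N : ℕ, 1 ≤ V → 1 ≤ N →
    |∑ D ∈ (Dset Λ N).filter (fun D => large V D = L), term Φ w D| ≤
      C * N * (V : ℝ) ^ (-(1 / 10 : ℝ)) * (1 + Real.log N) ^ (Fintype.card Λ + 3) := by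
  classical
  obtain ⟨C, hC0, hC⟩ := bilinear_sym hB
  refine ⟨C, hC0, ?_⟩
  intro Φ hΦ w hw L hL V N hV hN
  have hlogN : 0 ≤ Real.log N := Real.log_natCast_nonneg N
  have hVp : 0 < (V : ℝ) ^ (-(1 / 10 : ℝ)) := by
    apply Real.rpow_pos_of_pos
    exact_mod_cast (by omega : 0 < V)
  obtain ⟨a, ha, b, hb, hodd⟩ : ∃ a ∈ L, ∃ b ∈ L, ¬ Even (Φ a b + Φ b a) := by
    unfold Unlinked at hL
    push Not at hL
    obtain ⟨a, ha, b, hb, h⟩ := hL
    exact ⟨a, ha, b, hb, by simpa using h⟩
  have hab : a ≠ b := by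
    rintro rfl
    apply hodd
    rw [hΦ]
    exact ⟨0, rfl⟩
  have hmaps : ∀ D ∈ (Dset Λ N).filter (fun D => large V D = L),
      Function.update (Function.update D a 1) b 1 ∈ Fintype.piFinset fun _ : Λ => Icc 1 N := by
    intro D hD
    rw [mem_filter] at hD
    have hDm := hD.1
    unfold Dset at hDm
    rw [mem_filter, Fintype.mem_piFinset] at hDm
    rw [Fintype.mem_piFinset]
    intro c
    by_cases h2 : c = b
    · subst h2
      rw [Function.update_self, mem_Icc]
      omega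
    · rw [Function.update_of_ne h2]
      by_cases h1 : c = a
      · subst h1
        rw [Function.update_self, mem_Icc]
        omega
      · rw [Function.update_of_ne h1]
        exact hDm.1 c
  rw [← Finset.sum_fiberwise_of_maps_to hmaps]
  refine (Finset.abs_sum_le_sum_abs _ _).trans ?_
  refine (Finset.sum_le_sum fun R hR =>
    caseI_fibre hC0 hC Φ hΦ w hw L ha hb hab hodd V N hV hN R hR).trans ?_
  rw [← Finset.mul_sum, ← Finset.prod_univ_sum (fun _ : Λ => Icc 1 N) (fun _ x => (x : ℝ)⁻¹)]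
  rw [Finset.prod_const, Finset.card_univ]
  have h1 : (∑ x ∈ Icc 1 N, (x : ℝ)⁻¹) ^ Fintype.card Λ ≤ (1 + Real.log N) ^ Fintype.card Λ :=
    pow_le_pow_left₀ (Finset.sum_nonneg fun _ _ => by positivity) (caseI_harm N) _
  calc C * N * (V : ℝ) ^ (-(1 / 10 : ℝ)) * (1 + Real.log N) ^ 3 *
        (∑ x ∈ Icc 1 N, (x : ℝ)⁻¹) ^ Fintype.card Λ
      ≤ C * N * (V : ℝ) ^ (-(1 / 10 : ℝ)) * (1 + Real.log N) ^ 3 *
        (1 + Real.log N) ^ Fintype.card Λ := by
        apply mul_le_mul_of_nonneg_left h1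
        positivity
    _ = C * N * (V : ℝ) ^ (-(1 / 10 : ℝ)) * (1 + Real.log N) ^ (Fintype.card Λ + 3) := by
        rw [pow_add]; ring

end Pool.Agent.Helper36.TW
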