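import Pool.Agent.Helper36.TW.Split
import Pool.Agent.Helper36.TW.Bij

/-!
# Project TW (MP_2ae8fe_ag), module CaseII: the set of large labels is unlinked, trivial bound

`MultBound κ M a T`: see below (module Mult of helper13; passed as a hypothesis here). Write `D = E * F` with `E c = D c`,
`F c = 1` for `c ∉ L` and `E c = 1`, `F c = D c` for `c ∈ L`. `E` runs over families with `E c ≤ V`, for fixed `E` put
`P = ∏ E c`, `n = ∏ F c ≤ N / P`. With `v c r = |w c r|` for `c ∈ L`, `v c r = 0` for `c ∉ L`: `|term| ≤ ∏ c, |W w c (D c)|`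
(`abs_term_le`) `≤ ∏ c, W v c (F c)`, and `∑ F ∈ fact Λ n, ∏ c, W v c (F c) = ∏ r ∈ n.primeFactors, ∑ c ∈ L, |w c r|`
(`sum_prod_W`), `n` squarefree. By `MultBound` the sum over `n ≤ N / P` is `≤ C (N / P) (log (N / P)) ^ (-δ)`, and
`N / P ≥ N ^ (1/4)` as `P ≤ V ^ #Λ`, `V ^ (2 #Λ) ≤ N`, `16 ≤ N`. The sum over `E` of `1 / P` is at most
`(∑ x ∈ Icc 1 V, 1 / x) ^ #Λ ≤ (1 + log V) ^ #Λ`.
-/

set_option autoImplicit false
set_option linter.unusedSectionVars false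

namespace Pool.Agent.Helper36.TW

open Finset

open Classical in
/-- the statement of the mean value bound, uniform in `g` -/
def MultBound (κ : ℝ) (M a T : ℕ) : Prop := ∃ C δ : ℝ, 0 < C ∧ 0 < δ ∧ ∀ g : ℕ → ℝ,
  (∀ p, 0 ≤ g p) → (∀ p, p.Prime → g p ≤ 1) →
  (∀ p, p.Prime → T < p → p % M = a % M → g p ≤ 1 - κ) → ∀ Y : ℕ, 2 ≤ Y →
    ∑ n ∈ (Icc 1 Y).filter Squarefree, ∏ p ∈ n.primeFactors, g p ≤
      C * Y * (Real.log Y) ^ (-δ)

variable {Λ : Type} [Fintype Λ] [DecidableEq Λ]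

/-- the part of the family outside `L` -/
private def CaseII_E (L : Finset Λ) (D : Λ → ℕ) (c : Λ) : ℕ := if c ∈ L then 1 else D c

/-- the part of the family in `L` -/
private def CaseII_F (L : Finset Λ) (D : Λ → ℕ) (c : Λ) : ℕ := if c ∈ L then D c else 1

private theorem CaseII_mul (L : Finset Λ) (D : Λ → ℕ) (c : Λ) : CaseII_E L D c * CaseII_F L D c = D c := by
  unfold CaseII_E CaseII_F
  split_ifs <;> ring

/-- absolute weights on `L` -/
private noncomputable def CaseII_v (w : Λ → ℕ → ℝ) (L : Finset Λ) (c : Λ) (r : ℕ) : ℝ :=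
  if c ∈ L then |w c r| else 0

private theorem CaseII_v_nonneg (w : Λ → ℕ → ℝ) (L : Finset Λ) (c : Λ) (r : ℕ) : 0 ≤ CaseII_v w L c r := by
  unfold CaseII_v
  split_ifs
  · exact abs_nonneg _
  · exact le_rfl

private theorem CaseII_sum_v (w : Λ → ℕ → ℝ) (L : Finset Λ) (r : ℕ) :
    ∑ c, CaseII_v w L c r = ∑ c ∈ L, |w c r| := by
  unfold CaseII_v
  rw [Finset.sum_ite_mem, Finset.univ_inter]

private theorem CaseII_G_nonneg (w : Λ → ℕ → ℝ) (L : Finset Λ) (F : Λ → ℕ) :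
    0 ≤ ∏ c, W (CaseII_v w L) c (F c) := by
  refine Finset.prod_nonneg fun c _ => ?_
  unfold W
  exact Finset.prod_nonneg fun r _ => CaseII_v_nonneg w L c r

private theorem CaseII_abs {w : Λ → ℕ → ℝ} (hw : ∀ c r, |w c r| ≤ 1) (Φ : Λ → Λ → ℕ) (L : Finset Λ)
    (D : Λ → ℕ) : |term Φ w D| ≤ ∏ c, W (CaseII_v w L) c (CaseII_F L D c) := by
  refine (abs_term_le Φ D).trans (Finset.prod_le_prod (fun _ _ => abs_nonneg _) fun c _ => ?_)
  by_cases hc : c ∈ L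
  · have h1 : CaseII_F L D c = D c := if_pos hc
    rw [h1]
    unfold W
    rw [Finset.abs_prod]
    refine le_of_eq (Finset.prod_congr rfl fun r _ => ?_)
    unfold CaseII_v
    rw [if_pos hc]
  · have h1 : CaseII_F L D c = 1 := if_neg hc
    rw [h1]
    refine (abs_W_le hw c _).trans (le_of_eq ?_)
    simp [W]

/-- the sum over the families with given part outside `L` -/
private theorem CaseII_fiber {κ : ℝ} {M a T : ℕ} {C δ : ℝ}
    (hmain : ∀ g : ℕ → ℝ, (∀ p, 0 ≤ g p) → (∀ p, p.Prime → g p ≤ 1) →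
      (∀ p, p.Prime → T < p → p % M = a % M → g p ≤ 1 - κ) → ∀ Y : ℕ, 2 ≤ Y →
      ∑ n ∈ (Icc 1 Y).filter Squarefree, ∏ p ∈ n.primeFactors, g p ≤ C * Y * (Real.log Y) ^ (-δ))
    (w : Λ → ℕ → ℝ) (L : Finset Λ)
    (h1 : ∀ r : ℕ, r.Prime → ∑ c ∈ L, |w c r| ≤ 1)
    (h2 : ∀ r : ℕ, r.Prime → T < r → r % M = a % M → ∑ c ∈ L, |w c r| ≤ 1 - κ)
    (S : Finset (Λ → ℕ)) (E : Λ → ℕ) (hE : ∀ c, 1 ≤ E c) (N : ℕ)
    (hS : ∀ D ∈ S, CaseII_E L D = E ∧ (∀ c, 1 ≤ D c) ∧ Squarefree (∏ c, D c) ∧ ∏ c, D c ≤ N)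
    (hY : 2 ≤ N / ∏ c, E c) :
    ∑ D ∈ S, ∏ c, W (CaseII_v w L) c (CaseII_F L D c) ≤
      C * ((N / ∏ c, E c : ℕ) : ℝ) * (Real.log ((N / ∏ c, E c : ℕ) : ℝ)) ^ (-δ) := by
  classical
  set P := ∏ c, E c with hP
  set Y := N / P with hYdef
  have hP0 : 0 < P := Finset.prod_pos fun c _ => hE c
  refine le_trans ?_ (hmain (fun r => ∑ c ∈ L, |w c r|) (fun p => Finset.sum_nonneg fun c _ => abs_nonneg _)
    h1 h2 Y hY)
  have hprod : ∀ D ∈ S, P * ∏ c, CaseII_F L D c = ∏ c, D c := by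
    intro D hD
    rw [hP, ← (hS D hD).1, ← Finset.prod_mul_distrib]
    exact Finset.prod_congr rfl fun c _ => CaseII_mul L D c
  have hmaps : ∀ D ∈ S, ∏ c, CaseII_F L D c ∈ (Icc 1 Y).filter Squarefree := by
    intro D hD
    have h3 := hprod D hD
    obtain ⟨_, h4, h5, h6⟩ := hS D hD
    rw [mem_filter, mem_Icc]
    refine ⟨⟨?_, ?_⟩, ?_⟩
    · refine Nat.succ_le_of_lt (Finset.prod_pos fun c _ => ?_)
      unfold CaseII_F
      split_ifs
      · exact h4 c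
      · exact one_pos
    · rw [hYdef, Nat.le_div_iff_mul_le hP0, mul_comm, h3]
      exact h6
    · refine Squarefree.squarefree_of_dvd ?_ h5
      exact ⟨P, by rw [← h3, mul_comm]⟩
  rw [← Finset.sum_fiberwise_of_maps_to hmaps]
  refine Finset.sum_le_sum fun n hn => ?_
  rw [mem_filter, mem_Icc] at hn
  have h7 := sum_prod_W (Λ := Λ) hn.2 (CaseII_v w L)
  rw [Finset.prod_congr rfl fun r _ => CaseII_sum_v w L r] at h7
  rw [← h7]
  have hinj : Set.InjOn (fun D : Λ → ℕ => CaseII_F L D)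
      (S.filter fun D => ∏ c, CaseII_F L D c = n : Finset (Λ → ℕ)) := by
    intro D hD D' hD' h
    rw [Finset.mem_coe, mem_filter] at hD hD'
    funext c
    rw [← CaseII_mul L D c, ← CaseII_mul L D' c, (hS D hD.1).1, (hS D' hD'.1).1]
    have : CaseII_F L D c = CaseII_F L D' c := congrFun h c
    rw [this]
  rw [← Finset.sum_image (f := fun F : Λ → ℕ => ∏ c, W (CaseII_v w L) c (F c)) hinj]
  refine Finset.sum_le_sum_of_subset_of_nonneg ?_ fun F _ _ => CaseII_G_nonneg w L F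
  intro F hF
  rw [mem_image] at hF
  obtain ⟨D, hD, rfl⟩ := hF
  rw [mem_filter] at hD
  rw [mem_fact (by omega)]
  exact hD.2

private theorem CaseII_log {N Y : ℕ} (hN : 16 ≤ N) (hY : N < (Y + 1) ^ 2) {δ : ℝ} (hδ : 0 < δ) :
    (Real.log Y) ^ (-δ) ≤ 4 ^ δ * (Real.log N) ^ (-δ) := by
  have hY3 : 4 ≤ Y := by
    by_contra hcon
    have : (Y + 1) ^ 2 ≤ 4 ^ 2 := Nat.pow_le_pow_left (by omega) 2
    omega
  have h1 : N ≤ Y ^ 4 := by
    have h2 : Y + 1 ≤ Y ^ 2 := by nlinarith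
    calc N ≤ (Y + 1) ^ 2 := hY.le
      _ ≤ (Y ^ 2) ^ 2 := Nat.pow_le_pow_left h2 2
      _ = Y ^ 4 := by ring
  have hN0 : (0 : ℝ) < N := by exact_mod_cast (by omega : 0 < N)
  have hY0 : (1 : ℝ) < Y := by exact_mod_cast (by omega : 1 < Y)
  have h3 : Real.log N ≤ 4 * Real.log Y := by
    have h4 : Real.log (N : ℝ) ≤ Real.log ((Y : ℝ) ^ 4) := by
      apply Real.log_le_log hN0
      exact_mod_cast h1
    rw [Real.log_pow] at h4
    exact_mod_cast h4
  have hlN : 0 < Real.log N := Real.log_pos (by exact_mod_cast (by omega : 1 < N))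
  have h5 : Real.log N / 4 ≤ Real.log Y := by linarith
  calc (Real.log Y) ^ (-δ) ≤ (Real.log N / 4) ^ (-δ) :=
        Real.rpow_le_rpow_of_nonpos (by positivity) h5 (by linarith)
    _ = 4 ^ δ * (Real.log N) ^ (-δ) := by
        rw [Real.div_rpow hlN.le (by norm_num), Real.rpow_neg (by norm_num : (0 : ℝ) ≤ 4), div_inv_eq_mul,
          mul_comm]

private theorem CaseII_harm (V : ℕ) : ∑ x ∈ Icc 1 V, (1 / (x : ℝ)) ≤ 1 + Real.log V := by
  have h := harmonic_le_one_add_log V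
  rw [harmonic_eq_sum_Icc] at h
  push_cast at h
  simpa [one_div] using h

theorem caseII {κ : ℝ} {M a T : ℕ} (hM : MultBound κ M a T) : ∃ C δ : ℝ, 0 < C ∧ 0 < δ ∧
    ∀ (Φ : Λ → Λ → ℕ) (w : Λ → ℕ → ℝ), (∀ c r, |w c r| ≤ 1) → ∀ (L : Finset Λ),
    (∀ r : ℕ, r.Prime → ∑ c ∈ L, |w c r| ≤ 1) →
    (∀ r : ℕ, r.Prime → T < r → r % M = a % M → ∑ c ∈ L, |w c r| ≤ 1 - κ) →
    ∀ V N : ℕ, 1 ≤ V → 16 ≤ N → V ^ (2 * Fintype.card Λ) ≤ N →
    |∑ D ∈ (Dset Λ N).filter (fun D => large V D = L), term Φ w D| ≤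
      C * N * (Real.log N) ^ (-δ) * (1 + Real.log V) ^ Fintype.card Λ := by
  classical
  obtain ⟨C0, δ, hC0, hδ, hmain⟩ := hM
  refine ⟨C0 * 4 ^ δ, δ, by positivity, hδ, ?_⟩
  intro Φ w hw L hL1 hL2 V N hV hN hVN
  set m := Fintype.card Λ with hm
  have hlN : 0 < Real.log N := Real.log_pos (by exact_mod_cast (by omega : 1 < N))
  set S := (Dset Λ N).filter (fun D => large V D = L) with hS
  refine (Finset.abs_sum_le_sum_abs _ _).trans ?_
  refine (Finset.sum_le_sum fun D _ => CaseII_abs hw Φ L D).trans ?_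
  have hD : ∀ D ∈ S, (∀ c, 1 ≤ D c) ∧ Squarefree (∏ c, D c) ∧ ∏ c, D c ≤ N ∧ large V D = L := by
    intro D hD
    rw [hS, mem_filter] at hD
    obtain ⟨h1, h2⟩ := hD
    unfold Dset at h1
    rw [mem_filter, Fintype.mem_piFinset] at h1
    exact ⟨fun c => (mem_Icc.1 (h1.1 c)).1, h1.2.1, h1.2.2.2, h2⟩
  have hmaps : ∀ D ∈ S, CaseII_E L D ∈ Fintype.piFinset fun _ : Λ => Icc 1 V := by
    intro D hDS
    obtain ⟨h1, _, _, h4⟩ := hD D hDS
    rw [Fintype.mem_piFinset]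
    intro c
    rw [mem_Icc]
    unfold CaseII_E
    split_ifs with hc
    · exact ⟨le_rfl, hV⟩
    · refine ⟨h1 c, ?_⟩
      by_contra hcon
      apply hc
      rw [← h4]
      unfold large
      rw [mem_filter]
      exact ⟨mem_univ _, not_le.1 hcon⟩
  rw [← Finset.sum_fiberwise_of_maps_to hmaps]
  have hfib : ∀ E ∈ Fintype.piFinset fun _ : Λ => Icc 1 V,
      ∑ D ∈ S.filter (fun D => CaseII_E L D = E), ∏ c, W (CaseII_v w L) c (CaseII_F L D c) ≤
      (C0 * 4 ^ δ * N * (Real.log N) ^ (-δ)) * ∏ c, (1 / (E c : ℝ)) := by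
    intro E hE
    rw [Fintype.mem_piFinset] at hE
    have hE1 : ∀ c, 1 ≤ E c := fun c => (mem_Icc.1 (hE c)).1
    have hE2 : ∀ c, E c ≤ V := fun c => (mem_Icc.1 (hE c)).2
    set P := ∏ c, E c with hP
    have hP0 : 0 < P := Finset.prod_pos fun c _ => hE1 c
    have hPV : P ≤ V ^ m := by
      rw [hP, hm]
      calc ∏ c, E c ≤ ∏ _c : Λ, V := Finset.prod_le_prod' fun c _ => hE2 c
        _ = V ^ Fintype.card Λ := by rw [Finset.prod_const, Finset.card_univ]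
    have hPP : P * P ≤ N := by
      calc P * P ≤ V ^ m * V ^ m := Nat.mul_le_mul hPV hPV
        _ = V ^ (2 * m) := by rw [← pow_add]; congr 1; ring
        _ ≤ N := hVN
    have hYN : N < (N / P + 1) ^ 2 := by
      have h1 : N < P * (N / P + 1) := Nat.lt_mul_div_succ N hP0
      have h2 : P < N / P + 1 := by
        rw [Nat.lt_succ_iff, Nat.le_div_iff_mul_le hP0]
        exact hPP
      nlinarith
    have hY4 : 4 ≤ N / P := by
      by_contra hcon
      have : (N / P + 1) ^ 2 ≤ 4 ^ 2 := Nat.pow_le_pow_left (by omega) 2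
      omega
    have h3 := CaseII_fiber (Λ := Λ) hmain w L hL1 hL2 (S.filter (fun D => CaseII_E L D = E)) E hE1 N
      (by
        intro D hDS
        rw [mem_filter] at hDS
        obtain ⟨g1, g2, g3, _⟩ := hD D hDS.1
        exact ⟨hDS.2, g1, g2, g3⟩) (by rw [← hP]; omega)
    rw [← hP] at h3
    refine h3.trans ?_
    have hPr : (0 : ℝ) < P := by exact_mod_cast hP0
    have h4 : ((N / P : ℕ) : ℝ) ≤ (N : ℝ) / P := Nat.cast_div_le
    have h5 := CaseII_log hN hYN hδ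
    have h6 : 0 ≤ (Real.log ((N / P : ℕ) : ℝ)) ^ (-δ) := by
      apply Real.rpow_nonneg
      apply Real.log_nonneg
      exact_mod_cast (by omega : 1 ≤ N / P)
    have h7 : ∏ c, (1 / (E c : ℝ)) = 1 / (P : ℝ) := by
      rw [hP, Nat.cast_prod, Finset.prod_div_distrib, Finset.prod_const_one]
    rw [h7]
    calc C0 * ((N / P : ℕ) : ℝ) * (Real.log ((N / P : ℕ) : ℝ)) ^ (-δ)
        ≤ C0 * ((N : ℝ) / P) * (4 ^ δ * (Real.log N) ^ (-δ)) := by
          apply mul_le_mul (mul_le_mul_of_nonneg_left h4 hC0.le) h5 h6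
          positivity
      _ = _ := by ring
  refine (Finset.sum_le_sum hfib).trans ?_
  rw [← Finset.mul_sum]
  have hsum : ∑ E ∈ Fintype.piFinset (fun _ : Λ => Icc 1 V), ∏ c, (1 / (E c : ℝ)) =
      (∑ x ∈ Icc 1 V, (1 / (x : ℝ))) ^ m := by
    rw [← Finset.prod_univ_sum (fun _ : Λ => Icc 1 V) (fun _ x => (1 / (x : ℝ))), Finset.prod_const,
      Finset.card_univ]
  rw [hsum]
  have h0 : 0 ≤ ∑ x ∈ Icc 1 V, (1 / (x : ℝ)) := Finset.sum_nonneg fun x _ => by positivity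
  apply mul_le_mul_of_nonneg_left (pow_le_pow_left₀ h0 (CaseII_harm V) m)
  have : 0 ≤ (Real.log N) ^ (-δ) := Real.rpow_nonneg hlN.le _
  positivity

end Pool.Agent.Helper36.TW
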