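import Mathlib

/-!
# Project TW (MP_2ae8fe_ag): definitions of the abstract Heath-Brown upper bound

`Λ` is the finite set of labels. A squarefree number `d` is written in all ways as a product of
pairwise coprime numbers `D a`, `a : Λ`; `term` is the product of the weights and of the Jacobi
symbols `(D a / D b) ^ Φ a b`.
-/

set_option autoImplicit false
set_option linter.unusedSectionVars false

namespace Pool.Agent.Helper36.TW

open Finset

section

variable (Λ : Type) [Fintype Λ] [DecidableEq Λ]

/-- ordered factorisations of `d` indexed by `Λ` -/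
def fact (d : ℕ) : Finset (Λ → ℕ) :=
  (Fintype.piFinset fun _ : Λ => d.divisors).filter fun F => ∏ a, F a = d

open Classical in
/-- all families of natural numbers indexed by `Λ` with odd squarefree product at most `N` -/
noncomputable def Dset (N : ℕ) : Finset (Λ → ℕ) :=
  (Fintype.piFinset fun _ : Λ => Icc 1 N).filter fun D =>
    Squarefree (∏ a, D a) ∧ Odd (∏ a, D a) ∧ ∏ a, D a ≤ N

end

variable {Λ : Type} [Fintype Λ] [DecidableEq Λ]

/-- the Jacobi symbol of natural numbers as a real number -/
noncomputable def jac (x y : ℕ) : ℝ := ((jacobiSym (x : ℤ) y : ℤ) : ℝ)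

/-- multiplicative extension of a weight given at the primes -/
noncomputable def W (w : Λ → ℕ → ℝ) (a : Λ) (m : ℕ) : ℝ := ∏ r ∈ m.primeFactors, w a r

/-- the summand of the expanded Selmer sum -/
noncomputable def term (Φ : Λ → Λ → ℕ) (w : Λ → ℕ → ℝ) (D : Λ → ℕ) : ℝ :=
  (∏ a, W w a (D a)) * ∏ a, ∏ b, jac (D a) (D b) ^ Φ a b

/-- a set of labels is unlinked if no pair of its elements is linked -/
def Unlinked (Φ : Λ → Λ → ℕ) (L : Finset Λ) : Prop :=
  ∀ a ∈ L, ∀ b ∈ L, Even (Φ a b + Φ b a)

/-- the labels with a large variable -/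
def large (V : ℕ) (D : Λ → ℕ) : Finset Λ := univ.filter fun a => V < D a

theorem abs_jac_le (x y : ℕ) : |jac x y| ≤ 1 := by
  unfold jac
  rcases jacobiSym.trichotomy (x : ℤ) y with h | h | h <;> rw [h] <;> simp

theorem mem_fact {d : ℕ} {F : Λ → ℕ} (hd : d ≠ 0) : F ∈ fact Λ d ↔ ∏ a, F a = d := by
  unfold fact
  rw [mem_filter, Fintype.mem_piFinset]
  constructor
  · exact fun h => h.2
  · intro h
    refine ⟨fun a => ?_, h⟩
    rw [Nat.mem_divisors]
    exact ⟨h ▸ Finset.dvd_prod_of_mem F (mem_univ a), hd⟩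

/-! ### the labels of the twist problem -/

section

variable {J : Type} [Fintype J] [DecidableEq J]

/-- exponent of `(D a / D b)`; a label is a pair `(e, f)`, `e` the type, `f` a subset of `J` -/
def PhiL (a b : (J → Bool) × (J → Bool)) : ℕ :=
  (univ.filter fun j : J => b.2 j = true ∧ a.1 j ≠ b.1 j).card

/-- the sign `κ`, cut off to `-1, 0, 1` -/
noncomputable def sg (κ : (J → Bool) → J → ℕ → ℤ) (e : J → Bool) (j : J) (r : ℕ) : ℝ :=
  if κ e j r = 1 then 1 else if κ e j r = -1 then -1 else 0

open Classical in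
/-- the weight of the label `(e, f)` at the prime `r` -/
noncomputable def wL (S : (J → Bool) → ℕ → Prop) (κ : (J → Bool) → J → ℕ → ℤ)
    (a : (J → Bool) × (J → Bool)) (r : ℕ) : ℝ :=
  if S a.1 r then 0 else (1 / 2 : ℝ) ^ Fintype.card J * ∏ j, if a.2 j then sg κ a.1 j r else 1

end

end Pool.Agent.Helper36.TW
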