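import Pool.Agent.Helper36.TW.Bij

/-!
# Project TW (MP_2ae8fe_ag), module Expand
-/

set_option autoImplicit false
set_option linter.unusedSectionVars false

namespace Pool.Agent.Helper36.TW

open Finset

variable {Λ : Type} [Fintype Λ] [DecidableEq Λ]

theorem Expand_jac_one_left (y : ℕ) : jac 1 y = 1 := by
  unfold jac
  rw [Nat.cast_one, jacobiSym.one_left]
  norm_num

theorem Expand_jac_one_right (x : ℕ) : jac x 1 = 1 := by
  unfold jac
  rw [jacobiSym.one_right]
  norm_num

theorem Expand_jac_mul_left (x x' y : ℕ) : jac (x * x') y = jac x y * jac x' y := by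
  unfold jac
  rw [Nat.cast_mul, jacobiSym.mul_left]
  push_cast
  rfl

theorem Expand_jac_mul_right (x : ℕ) {y y' : ℕ} (hy : y ≠ 0) (hy' : y' ≠ 0) :
    jac x (y * y') = jac x y * jac x y' := by
  unfold jac
  have : NeZero y := ⟨hy⟩
  have : NeZero y' := ⟨hy'⟩
  rw [jacobiSym.mul_right]
  push_cast
  rfl

theorem Expand_jac_prod_left {ι : Type*} (s : Finset ι) (f : ι → ℕ) (y : ℕ) :
    jac (∏ i ∈ s, f i) y = ∏ i ∈ s, jac (f i) y := by
  classical
  induction s using Finset.induction_on with
  | empty => rw [prod_empty, prod_empty, Expand_jac_one_left]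
  | insert i s hi ih => rw [prod_insert hi, prod_insert hi, Expand_jac_mul_left, ih]

theorem Expand_jac_prod_right {ι : Type*} (s : Finset ι) (f : ι → ℕ) (hf : ∀ i ∈ s, f i ≠ 0)
    (x : ℕ) : jac x (∏ i ∈ s, f i) = ∏ i ∈ s, jac x (f i) := by
  classical
  induction s using Finset.induction_on with
  | empty => rw [prod_empty, prod_empty, Expand_jac_one_right]
  | insert i s hi ih =>
    rw [prod_insert hi, prod_insert hi, Expand_jac_mul_right x (hf i (mem_insert_self i s))
      (Finset.prod_ne_zero_iff.2 fun j hj => hf j (mem_insert_of_mem hj)),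
      ih fun j hj => hf j (mem_insert_of_mem hj)]

theorem Expand_symbols {d : ℕ} (Φ : Λ → Λ → ℕ) (α : d.primeFactors → Λ) :
    ∏ a, ∏ b, jac (ofLab α a) (ofLab α b) ^ Φ a b =
      ∏ r : d.primeFactors, ∏ s : d.primeFactors, jac r s ^ Φ (α r) (α s) := by
  have h1 : ∀ a b, jac (ofLab α a) (ofLab α b) ^ Φ a b = ∏ r : d.primeFactors,
      ∏ s : d.primeFactors, (if α r = a then (if α s = b then jac r s ^ Φ a b else 1) else 1) := by
    intro a b
    unfold ofLab
    rw [Expand_jac_prod_left, ← Finset.prod_pow]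
    refine Finset.prod_congr rfl fun r _ => ?_
    rw [Expand_jac_prod_right, ← Finset.prod_pow]
    · refine Finset.prod_congr rfl fun s _ => ?_
      split_ifs
      · rfl
      · rw [Expand_jac_one_right, one_pow]
      · rw [Expand_jac_one_left, one_pow]
      · rw [Expand_jac_one_left, one_pow]
    · intro s _
      split_ifs
      · exact (Nat.prime_of_mem_primeFactors s.2).ne_zero
      · exact one_ne_zero
  rw [Finset.prod_congr rfl fun a _ => Finset.prod_congr rfl fun b _ => h1 a b]
  rw [Finset.prod_congr rfl fun a _ => Finset.prod_comm]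
  rw [Finset.prod_comm]
  refine Finset.prod_congr rfl fun r _ => ?_
  rw [Finset.prod_congr rfl fun a _ => Finset.prod_comm]
  rw [Finset.prod_comm]
  refine Finset.prod_congr rfl fun s _ => ?_
  have h2 : ∀ a, ∏ b, (if α r = a then (if α s = b then (jac r s : ℝ) ^ Φ a b else 1) else 1) =
      if α r = a then jac r s ^ Φ a (α s) else 1 := by
    intro a
    split_ifs with h
    · rw [Finset.prod_ite_eq univ (α s) (fun b => jac r s ^ Φ a b), if_pos (mem_univ _)]
    · rw [Finset.prod_const_one]
  rw [Finset.prod_congr rfl fun a _ => h2 a]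
  rw [Finset.prod_ite_eq univ (α r) (fun a => jac r s ^ Φ a (α s)), if_pos (mem_univ _)]

theorem sum_term {d : ℕ} (hd : Squarefree d) (Φ : Λ → Λ → ℕ) (w : Λ → ℕ → ℝ) :
    ∑ D ∈ fact Λ d, term Φ w D = ∑ α : d.primeFactors → Λ,
      (∏ r : d.primeFactors, w (α r) r) *
        ∏ r : d.primeFactors, ∏ s : d.primeFactors, jac r s ^ Φ (α r) (α s) := by
  rw [sum_fact hd]
  refine Finset.sum_congr rfl fun α _ => ?_
  unfold term
  rw [prod_W_ofLab, Expand_symbols]

end Pool.Agent.Helper36.TW
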