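import Pool.Agent.Helper48.TW.Main2
import Pool.Agent.Helper13.TW.Cut
import Pool.Agent.Helper81.TW.Box

/-!
# Project TW (MP_2ae8fe_ag): the abstract counting theorem, all inputs discharged
-/

set_option autoImplicit false

namespace Pool.Agent.Helper36.TW

/-- The bilinear bound for Jacobi symbols. -/
theorem bilinear : Bilinear := Pool.Agent.Helper13.TW.cut fun f g => Pool.Agent.Helper81.TW.box

/-- **The abstract Heath-Brown upper bound.** -/
theorem HB_final : Pool.Agent.Helper11.TW.HBS2 := Pool.Agent.Helper48.TW.HB2 bilinear

end Pool.Agent.Helper36.TW
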