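import Pool.Agent.Helper36.TW.Main
import Pool.Agent.Helper94.TW.Mult
import Pool.Agent.Helper11.TW.Defs

/-!
# Project TW (MP_2ae8fe_ag): the abstract theorem in the form used by the arithmetic part
-/

set_option autoImplicit false

namespace Pool.Agent.Helper36.TW

open Finset

theorem multBound (κ : ℝ) (M a T : ℕ) (hκ : 0 < κ) (hM : 0 < M) (ha : Nat.Coprime a M) :
    MultBound κ M a T := by
  obtain ⟨C, δ, hC, hδ, h⟩ := Pool.Agent.Helper94.TW.sum_mult_le hκ hM ha T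
  refine ⟨C, δ, hC, hδ, fun g h0 h1 h2 Y hY => ?_⟩
  have := h g (fun p hp => ⟨h0 p, h1 p hp⟩) h2 Y hY
  convert this

theorem HB_of (hB : Bilinear) : Pool.Agent.Helper11.TW.HBS := by
  intro J _ _ S hS
  obtain ⟨C, δ, -, hδ, h⟩ := HB hB multBound S hS
  refine ⟨C, δ, hδ, fun κ N hN A hA => h κ N hN A fun m hm => ?_⟩
  obtain ⟨h1, h2, h3, D, hD, h4⟩ := hA m hm
  refine ⟨h1, h2, h3, D, hD, fun e r hr hre => ⟨(h4 e r hr hre).1, fun j => ?_⟩⟩
  obtain ⟨h5, h6⟩ := (h4 e r hr hre).2 j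
  refine ⟨h6, ?_⟩
  rw [← h5]
  push_cast
  rfl

end Pool.Agent.Helper36.TW
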