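import Pool.Agent.Helper11.TW.Defs

/-!
# Project TW (MP_2ae8fe_ag): equations in a projective bundle over the Kummer variety

Variables: `ζ s`, `(p i, q i)`, and `η (i, j)`, which is `d w i w j` on the twist `d w² = quartic p q`.
-/

set_option autoImplicit false

namespace Pool.Agent.Helper36.TW

open Finset

/-- the variables -/
abbrev KVars (n : ℕ) (σ : Type) : Type := σ ⊕ ((Fin n × Fin 2) ⊕ (Fin n × Fin n))

/-- `G` is homogeneous in the variables `ζ s` and multihomogeneous: `ζ s` has degree `k s i`, `p i` and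
`q i` have degree `1`, `η (i, j)` has degree `2` in the `i`-th and in the `j`-th grading (degree `4` if
`i = j`). -/
def KMulti {n : ℕ} {σ : Type} [Fintype σ] (k : σ → Fin n → ℕ) (G : MvPolynomial (KVars n σ) ℤ) :
    Prop :=
  ∃ (D : ℕ) (δ : Fin n → ℕ), ∀ μ ∈ G.support, (∑ s, μ (Sum.inl s) = D) ∧
    ∀ i, (∑ s, μ (Sum.inl s) * k s i) + μ (Sum.inr (Sum.inl (i, 0))) +
      μ (Sum.inr (Sum.inl (i, 1))) +
      ∑ j, 2 * (μ (Sum.inr (Sum.inr (i, j))) + μ (Sum.inr (Sum.inr (j, i)))) = δ i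

/-- the values of the variables -/
def kval {n : ℕ} {σ : Type} {R : Type*} (ζ : σ → R) (p q : Fin n → R)
    (η : Fin n × Fin n → R) : KVars n σ → R :=
  Sum.elim ζ (Sum.elim (fun j : Fin n × Fin 2 => ![p j.1, q j.1] j.2) η)

/-- The point satisfies all equations in `I`. -/
def KSol {n : ℕ} {σ : Type} {R : Type*} [CommRing R] (I : Set (MvPolynomial (KVars n σ) ℤ))
    (ζ : σ → R) (p q : Fin n → R) (η : Fin n × Fin n → R) : Prop :=
  ∀ G ∈ I, MvPolynomial.aeval (kval ζ p q η) G = 0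

/-- The fibre over the branch point `ε` has no point modulo `r`. -/
def KNoPoint {n : ℕ} {σ : Type} (a : Fin n → Fin 3 → ℤ)
    (I : Set (MvPolynomial (KVars n σ) ℤ)) (ε : Fin n → Option (Fin 3)) (r : ℕ) : Prop :=
  ∀ ζ : σ → ZMod r, KSol I ζ (fun i => ((Pool.Agent.Helper11.TW.rep (a i) (ε i)).1 : ZMod r))
    (fun i => ((Pool.Agent.Helper11.TW.rep (a i) (ε i)).2 : ZMod r)) (fun _ => 0) → ζ = 0

theorem kprod_scale {n : ℕ} {σ : Type} [Fintype σ] {R : Type*} [CommRing R] (k : σ → Fin n → ℕ)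
    (ζ : σ → R) (p q : Fin n → R) (η : Fin n × Fin n → R) (c : R) (lam : Fin n → R)
    (μ : KVars n σ →₀ ℕ) {D : ℕ} {δ : Fin n → ℕ} (h1 : ∑ s, μ (Sum.inl s) = D)
    (h2 : ∀ i, (∑ s, μ (Sum.inl s) * k s i) + μ (Sum.inr (Sum.inl (i, 0))) +
      μ (Sum.inr (Sum.inl (i, 1))) +
      ∑ j, 2 * (μ (Sum.inr (Sum.inr (i, j))) + μ (Sum.inr (Sum.inr (j, i)))) = δ i) :
    ∏ x, kval (fun s => c * (∏ i, lam i ^ k s i) * ζ s) (fun i => lam i * p i)
        (fun i => lam i * q i) (fun j => lam j.1 ^ 2 * lam j.2 ^ 2 * η j) x ^ μ x =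
      c ^ D * (∏ i, lam i ^ δ i) * ∏ x, kval ζ p q η x ^ μ x := by
  have e1 : ∀ (f : KVars n σ → R), ∏ x, f x = (∏ s, f (Sum.inl s)) *
      ((∏ i, f (Sum.inr (Sum.inl (i, 0))) * f (Sum.inr (Sum.inl (i, 1)))) *
        ∏ i, ∏ j, f (Sum.inr (Sum.inr (i, j)))) := by
    intro f
    rw [Fintype.prod_sum_type, Fintype.prod_sum_type, Fintype.prod_prod_type,
      Fintype.prod_prod_type]
    congr 2
    refine Finset.prod_congr rfl fun i _ => ?_
    rw [Fin.prod_univ_two]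
  rw [e1, e1]
  simp only [kval, Sum.elim_inl, Sum.elim_inr, Matrix.cons_val_zero, Matrix.cons_val_one]
  simp only [mul_pow, Finset.prod_mul_distrib]
  have e2 : ∏ s, c ^ μ (Sum.inl s) = c ^ D := by
    rw [Finset.prod_pow_eq_pow_sum, h1]
  have e3 : ∏ i, lam i ^ δ i = (∏ s, (∏ i, lam i ^ k s i) ^ μ (Sum.inl s)) *
      (∏ i, lam i ^ μ (Sum.inr (Sum.inl (i, 0)))) * (∏ i, lam i ^ μ (Sum.inr (Sum.inl (i, 1)))) *
      ((∏ i, ∏ j, (lam i ^ 2) ^ μ (Sum.inr (Sum.inr (i, j)))) *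
       (∏ i, ∏ j, (lam j ^ 2) ^ μ (Sum.inr (Sum.inr (i, j))))) := by
    have f1 : ∏ s, (∏ i, lam i ^ k s i) ^ μ (Sum.inl s) =
        ∏ i, lam i ^ (∑ s, μ (Sum.inl s) * k s i) := by
      rw [Finset.prod_congr rfl fun s _ => (Finset.prod_pow _ _ _).symm, Finset.prod_comm]
      refine Finset.prod_congr rfl fun i _ => ?_
      rw [← Finset.prod_pow_eq_pow_sum]
      refine Finset.prod_congr rfl fun s _ => ?_
      rw [← pow_mul, mul_comm]
    have f2 : ∏ i, ∏ j, (lam i ^ 2) ^ μ (Sum.inr (Sum.inr (i, j))) =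
        ∏ i, lam i ^ (∑ j, 2 * μ (Sum.inr (Sum.inr (i, j)))) := by
      refine Finset.prod_congr rfl fun i _ => ?_
      rw [← Finset.prod_pow_eq_pow_sum]
      refine Finset.prod_congr rfl fun j _ => ?_
      rw [← pow_mul]
    have f3 : ∏ i, ∏ j, (lam j ^ 2) ^ μ (Sum.inr (Sum.inr (i, j))) =
        ∏ i, lam i ^ (∑ j, 2 * μ (Sum.inr (Sum.inr (j, i)))) := by
      rw [Finset.prod_comm]
      refine Finset.prod_congr rfl fun i _ => ?_
      rw [← Finset.prod_pow_eq_pow_sum]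
      refine Finset.prod_congr rfl fun j _ => ?_
      rw [← pow_mul]
    rw [f1, f2, f3, ← Finset.prod_mul_distrib, ← Finset.prod_mul_distrib,
      ← Finset.prod_mul_distrib, ← Finset.prod_mul_distrib]
    refine Finset.prod_congr rfl fun i _ => ?_
    rw [← pow_add, ← pow_add, ← pow_add, ← pow_add, ← h2 i]
    congr 1
    simp only [mul_add, Finset.sum_add_distrib]
  rw [e2, e3]
  ring

/-- Multihomogeneity: scaling of the coordinates. -/
theorem ksol_scale {n : ℕ} {σ : Type} [Fintype σ] {R : Type*} [CommRing R] (k : σ → Fin n → ℕ)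
    (I : Set (MvPolynomial (KVars n σ) ℤ)) (hI : ∀ G ∈ I, KMulti k G)
    (ζ : σ → R) (p q : Fin n → R) (η : Fin n × Fin n → R) (c : R) (lam : Fin n → R)
    (h : KSol I ζ p q η) :
    KSol I (fun s => c * (∏ i, lam i ^ k s i) * ζ s) (fun i => lam i * p i)
      (fun i => lam i * q i) (fun j => lam j.1 ^ 2 * lam j.2 ^ 2 * η j) := by
  intro G hG
  obtain ⟨D, δ, hδ⟩ := hI G hG
  have h0 := h G hG
  rw [MvPolynomial.aeval_def, MvPolynomial.eval₂_eq'] at h0 ⊢
  have h1 : ∀ μ ∈ G.support, (algebraMap ℤ R) (MvPolynomial.coeff μ G) *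
      ∏ x, kval (fun s => c * (∏ i, lam i ^ k s i) * ζ s) (fun i => lam i * p i)
        (fun i => lam i * q i) (fun j => lam j.1 ^ 2 * lam j.2 ^ 2 * η j) x ^ μ x =
      (c ^ D * ∏ i, lam i ^ δ i) * ((algebraMap ℤ R) (MvPolynomial.coeff μ G) *
        ∏ x, kval ζ p q η x ^ μ x) := by
    intro μ hμ
    rw [kprod_scale k ζ p q η c lam μ (hδ μ hμ).1 (hδ μ hμ).2]
    ring
  rw [Finset.sum_congr rfl h1, ← Finset.mul_sum, h0, mul_zero]

end Pool.Agent.Helper36.TW
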