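import Pool.Agent.Helper36.TW.Kum

/-!
# Project TW (MP_2ae8fe_ag): integral coordinates and reduction, Kummer version
-/

set_option autoImplicit false

namespace Pool.Agent.Helper36.TW

open Finset Pool.Agent.Helper11.TW

theorem exists_primitive {σ : Type} [Fintype σ] (ζ : σ → ℚ) (hζ : ζ ≠ 0) :
    ∃ (c : ℚ) (z : σ → ℤ), c ≠ 0 ∧ (∀ s, c * ζ s = z s) ∧
      ∀ r : ℕ, r.Prime → ∃ s, ¬ (r : ℤ) ∣ z s := by
  classical
  obtain ⟨s0, hs0⟩ : ∃ s, ζ s ≠ 0 := by
    by_contra h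
    push Not at h
    exact hζ (funext h)
  set N : ℤ := ∏ s, ((ζ s).den : ℤ) with hN
  have hN0 : N ≠ 0 := Finset.prod_ne_zero_iff.2 fun s _ => by exact_mod_cast (ζ s).den_ne_zero
  have h1 : ∀ s, ∃ m : ℤ, (N : ℚ) * ζ s = m := by
    intro s
    obtain ⟨t, ht⟩ := Finset.dvd_prod_of_mem (fun s => ((ζ s).den : ℤ)) (mem_univ s)
    refine ⟨t * (ζ s).num, ?_⟩
    have h2 : (ζ s) * (ζ s).den = (ζ s).num := Rat.mul_den_eq_num _
    rw [hN, ht]
    push_cast
    rw [← h2]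
    ring
  choose z0 hz0 using h1
  obtain ⟨z, hz, hg⟩ := Finset.extract_gcd z0 (s := univ) ⟨s0, mem_univ _⟩
  set g : ℤ := univ.gcd z0 with hgdef
  have hz0s : z0 s0 ≠ 0 := by
    intro h
    have := hz0 s0
    rw [h] at this
    have h3 : (N : ℚ) * ζ s0 ≠ 0 := mul_ne_zero (by exact_mod_cast hN0) hs0
    exact h3 (by simpa using this)
  have hg0 : g ≠ 0 := by
    intro h
    have := hz s0 (mem_univ _)
    rw [h, zero_mul] at this
    exact hz0s this
  have hgq : (g : ℚ) ≠ 0 := by exact_mod_cast hg0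
  refine ⟨(N : ℚ) / g, z, div_ne_zero (by exact_mod_cast hN0) hgq, fun s => ?_, fun r hr => ?_⟩
  · have h2 := hz0 s
    have h3 := hz s (mem_univ _)
    rw [div_mul_eq_mul_div, h2, h3]
    push_cast
    field_simp
  · by_contra h
    push Not at h
    have h2 : (r : ℤ) ∣ univ.gcd z := Finset.dvd_gcd fun s _ => h s
    rw [hg] at h2
    have h3 := Int.natAbs_dvd_natAbs.2 h2
    simp at h3
    exact hr.one_lt.ne' h3

theorem exists_coprime (p q : ℚ) (h : p ≠ 0 ∨ q ≠ 0) : ∃ (c : ℚ) (P Q : ℤ), c ≠ 0 ∧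
    c * p = P ∧ c * q = Q ∧ IsCoprime P Q := by
  have h0 : (![p, q] : Fin 2 → ℚ) ≠ 0 := by
    intro h1
    rcases h with h | h
    · exact h (congrFun h1 0)
    · exact h (congrFun h1 1)
  obtain ⟨c, z, hc, hz, hr⟩ := exists_primitive (![p, q] : Fin 2 → ℚ) h0
  refine ⟨c, z 0, z 1, hc, hz 0, hz 1, ?_⟩
  rw [Int.isCoprime_iff_gcd_eq_one]
  by_contra hne
  obtain ⟨r, hrp, hrd⟩ := Nat.exists_prime_and_dvd hne
  obtain ⟨s, hs⟩ := hr r hrp
  have h1 : (r : ℤ) ∣ z 0 := (Int.natCast_dvd_natCast.2 hrd).trans (Int.gcd_dvd_left _ _)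
  have h2 : (r : ℤ) ∣ z 1 := (Int.natCast_dvd_natCast.2 hrd).trans (Int.gcd_dvd_right _ _)
  fin_cases s
  · exact hs h1
  · exact hs h2

theorem integral_of_sq {d m : ℤ} (hd : Squarefree d) {W : ℚ} (h : (d : ℚ) * W ^ 2 = m) :
    ∃ w : ℤ, (w : ℚ) = W := by
  have hden : (W.den : ℚ) ≠ 0 := by exact_mod_cast W.den_ne_zero
  have hW : W * W.den = W.num := Rat.mul_den_eq_num _
  have h1 : (d : ℚ) * W.num ^ 2 = m * W.den ^ 2 := by
    rw [← hW, ← h]
    ring
  have h2 : d * W.num ^ 2 = m * (W.den : ℤ) ^ 2 := by exact_mod_cast h1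
  have hcop : IsCoprime ((W.den : ℤ) ^ 2) (W.num ^ 2) := by
    apply IsCoprime.pow
    rw [Int.isCoprime_iff_gcd_eq_one]
    have := W.reduced
    rw [Int.gcd_comm, Int.gcd, Int.natAbs_natCast]
    exact this
  have h3 : (W.den : ℤ) ^ 2 ∣ d := by
    have h4 : (W.den : ℤ) ^ 2 ∣ d * W.num ^ 2 := ⟨m, by rw [h2]; ring⟩
    exact hcop.dvd_of_dvd_mul_right h4
  have h5 : IsUnit (W.den : ℤ) := hd _ (by rw [← sq]; exact h3)
  have h6 : W.den = 1 := by
    rcases Int.isUnit_iff.1 h5 with h | h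
    · exact_mod_cast h
    · omega
  exact ⟨W.num, Rat.coe_int_num_of_den_eq_one h6⟩

theorem ksol_cast {n : ℕ} {σ : Type} (I : Set (MvPolynomial (KVars n σ) ℤ)) (ζ : σ → ℤ)
    (p q : Fin n → ℤ) (η : Fin n × Fin n → ℤ) (R : Type) [CommRing R] (h : KSol I ζ p q η) :
    KSol I (fun s => (ζ s : R)) (fun i => (p i : R)) (fun i => (q i : R))
      (fun j => (η j : R)) := by
  intro G hG
  have h1 := congrArg (algebraMap ℤ R) (h G hG)
  rw [← MvPolynomial.aeval_algebraMap_apply, map_zero] at h1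
  rw [← h1]
  congr 2
  funext x
  rcases x with s | ⟨i, j⟩ | j
  · rfl
  · fin_cases j <;> rfl
  · rfl

theorem ksol_of_cast {n : ℕ} {σ : Type} (I : Set (MvPolynomial (KVars n σ) ℤ)) (ζ : σ → ℤ)
    (p q : Fin n → ℤ) (η : Fin n × Fin n → ℤ)
    (h : KSol I (fun s => (ζ s : ℚ)) (fun i => (p i : ℚ)) (fun i => (q i : ℚ))
      (fun j => (η j : ℚ))) : KSol I ζ p q η := by
  intro G hG
  have h1 := h G hG
  have h2 : (algebraMap ℤ ℚ) (MvPolynomial.aeval (kval ζ p q η) G) = 0 := by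
    rw [← MvPolynomial.aeval_algebraMap_apply, ← h1]
    congr 2
    funext x
    rcases x with s | ⟨i, j⟩ | j
    · rfl
    · fin_cases j <;> rfl
    · rfl
  exact (FaithfulSMul.algebraMap_injective ℤ ℚ) (h2.trans (map_zero _).symm)

/-- A rational point of `Y` over a rational point of the product of the twists has integral
coordinates which are primitive. -/
theorem kexists_integral {n : ℕ} {σ : Type} [Fintype σ] (a : Fin n → Fin 3 → ℤ)
    (k : σ → Fin n → ℕ) (I : Set (MvPolynomial (KVars n σ) ℤ)) (hI : ∀ G ∈ I, KMulti k G) (d : ℤ)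
    (hd : Squarefree d) (ζ : σ → ℚ) (hζ : ζ ≠ 0) (p q w : Fin n → ℚ)
    (hpq : ∀ i, p i ≠ 0 ∨ q i ≠ 0)
    (hw : ∀ i, (d : ℚ) * w i ^ 2 = q i * (p i - a i 0 * q i) * (p i - a i 1 * q i) *
      (p i - a i 2 * q i))
    (h : KSol I ζ p q (fun j => (d : ℚ) * w j.1 * w j.2)) :
    ∃ (ζ' : σ → ℤ) (p' q' w' : Fin n → ℤ), KSol I ζ' p' q' (fun j => d * w' j.1 * w' j.2) ∧
      (∀ i, IsCoprime (p' i) (q' i) ∧ d * w' i ^ 2 = quartic (a i) (p' i) (q' i)) ∧
      ∀ r : ℕ, r.Prime → ∃ s, ¬ (r : ℤ) ∣ ζ' s := by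
  choose lam P Q hlam hP hQ hcop using fun i => exists_coprime (p i) (q i) (hpq i)
  have hquart : ∀ i, (d : ℚ) * (lam i ^ 2 * w i) ^ 2 = (quartic (a i) (P i) (Q i) : ℤ) := by
    intro i
    unfold quartic
    push_cast
    rw [← hP i, ← hQ i]
    have := hw i
    calc (d : ℚ) * (lam i ^ 2 * w i) ^ 2 = lam i ^ 4 * ((d : ℚ) * w i ^ 2) := by ring
      _ = _ := by rw [this]; ring
  choose W hW using fun i => integral_of_sq hd (hquart i)
  have h1 := ksol_scale k I hI ζ p q _ 1 lam h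
  have hne : (fun s => (1 : ℚ) * (∏ i, lam i ^ k s i) * ζ s) ≠ 0 := by
    intro h0
    apply hζ
    funext s
    have := congrFun h0 s
    have h3 : (∏ i, lam i ^ k s i) ≠ 0 :=
      Finset.prod_ne_zero_iff.2 fun i _ => pow_ne_zero _ (hlam i)
    simpa [h3] using this
  obtain ⟨c, z, hc, hz, hr⟩ := exists_primitive _ hne
  have h2 := ksol_scale k I hI _ _ _ _ c (fun _ => 1) h1
  refine ⟨z, P, Q, W, ?_, fun i => ⟨hcop i, ?_⟩, hr⟩
  · apply ksol_of_cast
    have e1 : (fun s => (z s : ℚ)) =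
        fun s => c * (∏ i : Fin n, (1 : ℚ) ^ k s i) * ((1 : ℚ) * (∏ i, lam i ^ k s i) * ζ s) := by
      funext s
      rw [← hz s]
      simp
    have e2 : (fun i => (P i : ℚ)) = fun i => 1 * (lam i * p i) := by
      funext i; rw [← hP i, one_mul]
    have e3 : (fun i => (Q i : ℚ)) = fun i => 1 * (lam i * q i) := by
      funext i; rw [← hQ i, one_mul]
    have e4 : (fun j : Fin n × Fin n => ((d * W j.1 * W j.2 : ℤ) : ℚ)) = fun j =>
        (1 : ℚ) ^ 2 * 1 ^ 2 * (lam j.1 ^ 2 * lam j.2 ^ 2 * ((d : ℚ) * w j.1 * w j.2)) := by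
      funext j
      push_cast
      rw [hW j.1, hW j.2]
      ring
    rw [e1, e2, e3, e4]
    exact h2
  · have h3 := hquart i
    rw [← hW i] at h3
    exact_mod_cast h3

/-- If the point reduces modulo `r` to the branch point `ε`, the fibre over `ε` has a point
modulo `r`. -/
theorem knot_noPoint {n : ℕ} {σ : Type} [Fintype σ] (a : Fin n → Fin 3 → ℤ)
    (k : σ → Fin n → ℕ) (I : Set (MvPolynomial (KVars n σ) ℤ)) (hI : ∀ G ∈ I, KMulti k G)
    (d : ℤ) (ζ : σ → ℤ) (p q w : Fin n → ℤ) (h : KSol I ζ p q (fun j => d * w j.1 * w j.2))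
    (hpq : ∀ i, IsCoprime (p i) (q i))
    (r : ℕ) (hr : r.Prime) (hrd : (r : ℤ) ∣ d) (hζ : ∃ s, ¬ (r : ℤ) ∣ ζ s)
    (ε : Fin n → Option (Fin 3))
    (hε : ∀ i, (r : ℤ) ∣ lin (a i) (ε i) (p i) (q i)) : ¬ KNoPoint a I ε r := by
  have : Fact r.Prime := ⟨hr⟩
  intro hno
  have h1 := ksol_cast I ζ p q _ (ZMod r) h
  have hd0 : ((d : ℤ) : ZMod r) = 0 := (ZMod.intCast_zmod_eq_zero_iff_dvd d r).2 hrd
  have h2 : ∀ i, ∃ u : ZMod r, u ≠ 0 ∧ u * (p i : ZMod r) = ((rep (a i) (ε i)).1 : ZMod r) ∧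
      u * (q i : ZMod r) = ((rep (a i) (ε i)).2 : ZMod r) := by
    intro i
    have h3 := hε i
    rcases hεi : ε i with _ | j
    · rw [hεi] at h3
      simp only [lin] at h3
      have hq : ((q i : ℤ) : ZMod r) = 0 := (ZMod.intCast_zmod_eq_zero_iff_dvd _ r).2 h3
      have hp : ((p i : ℤ) : ZMod r) ≠ 0 := by
        intro h4
        have h5 := (ZMod.intCast_zmod_eq_zero_iff_dvd _ r).1 h4
        have h6 := (hpq i).isUnit_of_dvd' h5 h3
        have h7 := Int.isUnit_iff.1 h6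
        have := hr.one_lt
        omega
      refine ⟨(p i : ZMod r)⁻¹, inv_ne_zero hp, ?_, ?_⟩
      · simp [rep, inv_mul_cancel₀ hp]
      · simp [rep, hq]
    · rw [hεi] at h3
      simp only [lin] at h3
      have hpq' : ((p i : ℤ) : ZMod r) = (a i j : ZMod r) * (q i : ZMod r) := by
        have := (ZMod.intCast_zmod_eq_zero_iff_dvd _ r).2 h3
        push_cast at this
        exact sub_eq_zero.1 this
      have hq : ((q i : ℤ) : ZMod r) ≠ 0 := by
        intro h4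
        have h5 := (ZMod.intCast_zmod_eq_zero_iff_dvd _ r).1 h4
        have h5' : (r : ℤ) ∣ p i := by
          rw [h4, mul_zero] at hpq'
          exact (ZMod.intCast_zmod_eq_zero_iff_dvd _ r).1 hpq'
        have h6 := (hpq i).isUnit_of_dvd' h5' h5
        have h7 := Int.isUnit_iff.1 h6
        have := hr.one_lt
        omega
      refine ⟨(q i : ZMod r)⁻¹, inv_ne_zero hq, ?_, ?_⟩
      · rw [hpq']
        simp only [rep]
        field_simp
      · simp [rep, inv_mul_cancel₀ hq]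
  choose u hu0 hu1 hu2 using h2
  have h3 := ksol_scale k I hI _ _ _ _ 1 u h1
  have h4 := hno (fun s => 1 * (∏ i, u i ^ k s i) * (ζ s : ZMod r)) (by
    have e1 : (fun i => ((rep (a i) (ε i)).1 : ZMod r)) = fun i => u i * (p i : ZMod r) := by
      funext i; exact (hu1 i).symm
    have e2 : (fun i => ((rep (a i) (ε i)).2 : ZMod r)) = fun i => u i * (q i : ZMod r) := by
      funext i; exact (hu2 i).symm
    have e3 : (fun _ : Fin n × Fin n => (0 : ZMod r)) = fun j =>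
        u j.1 ^ 2 * u j.2 ^ 2 * ((d * w j.1 * w j.2 : ℤ) : ZMod r) := by
      funext j
      push_cast
      rw [hd0]
      ring
    rw [e1, e2, e3]
    exact h3)
  obtain ⟨s, hs⟩ := hζ
  have h5 := congrFun h4 s
  have h6 : (∏ i, u i ^ k s i) ≠ 0 := Finset.prod_ne_zero_iff.2 fun i _ => pow_ne_zero _ (hu0 i)
  have h7 : (ζ s : ZMod r) ≠ 0 := fun h => hs ((ZMod.intCast_zmod_eq_zero_iff_dvd _ r).1 h)
  simp [h6, h7] at h5

end Pool.Agent.Helper36.TW
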