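import Pool.Agent.Helper36.TW.Defs

/-!
# Project TW (MP_2ae8fe_ag), module Link: unlinked sets of labels are small

`(-1) ^ (PhiL a b + PhiL b a) = (-1) ^ #{j | (a.2 j ≠ b.2 j) ∧ (a.1 j ≠ b.1 j)}`. Let `χ(x, w) = ∏ j,
(-1) ^ (x.1 j * w.2 j + x.2 j * w.1 j)` (bilinear, characters of `F_2 ^ (2 #J)`). Parseval: for every finite set `L'`,
`∑ w, (∑ x ∈ L', χ(x, w)) ^ 2 = 4 ^ #J * #L'` (`∑ w, χ(x, w) χ(y, w) = 0` for `x ≠ y`: product over `j`).
For `L` unlinked, nonempty, `b ∈ L`, `L' = L - b` (coordinatewise xor with `b`): `0 ∈ L'`, `q(x) = #{j | x.1 j ∧ x.2 j}` is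
even on `L'` and `q(x + y)` is even for `x, y ∈ L'`, and `χ(x, y) = (-1) ^ (q(x + y) + q(x) + q(y)) = 1` for `x, y ∈ L'`.
So the terms `w ∈ L'` give `#L' ^ 3 ≤ 4 ^ #J * #L'`.
`sum_abs_le`: `|wL S κ a r| ≤ 2 ^ (-#J)`. `sum_abs_le_class`: one label of `L` has weight `0` at the primes of a class
(if `L` is empty take any class); `1 - 2 ^ (-#J)`.
-/

set_option autoImplicit false
set_option linter.unusedSectionVars false

namespace Pool.Agent.Helper36.TW

open Finset

variable {J : Type} [Fintype J] [DecidableEq J]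

/-- sign of a boolean -/
def Link_s (b : Bool) : ℤ := if b then -1 else 1

/-- the character `χ (a - c, w - c)` -/
def Link_K (c a w : (J → Bool) × (J → Bool)) : ℤ :=
  (∏ j, Link_s ((xor (a.1 j) (c.1 j)) && (xor (w.2 j) (c.2 j)))) *
    ∏ j, Link_s ((xor (a.2 j) (c.2 j)) && (xor (w.1 j) (c.1 j)))

/-- the sign of a pair of labels -/
def Link_e (a b : (J → Bool) × (J → Bool)) : ℤ :=
  ∏ j, Link_s ((xor (a.1 j) (b.1 j)) && (xor (a.2 j) (b.2 j)))

theorem Link_pow (p : J → Prop) [DecidablePred p] :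
    (-1 : ℤ) ^ (univ.filter p).card = ∏ j, if p j then -1 else 1 := by
  rw [Finset.prod_ite, Finset.prod_const, Finset.prod_const_one, mul_one]

theorem Link_e_eq (a b : (J → Bool) × (J → Bool)) :
    Link_e a b = (-1) ^ (PhiL a b + PhiL b a) := by
  unfold Link_e PhiL
  rw [pow_add, Link_pow, Link_pow, ← Finset.prod_mul_distrib]
  refine Finset.prod_congr rfl fun j _ => ?_
  unfold Link_s
  cases a.1 j <;> cases b.1 j <;> cases a.2 j <;> cases b.2 j <;> decide

theorem Link_K_eq (c a w : (J → Bool) × (J → Bool)) :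
    Link_K c a w = Link_e a w * Link_e a c * Link_e w c := by
  unfold Link_K Link_e
  rw [← Finset.prod_mul_distrib, ← Finset.prod_mul_distrib, ← Finset.prod_mul_distrib]
  refine Finset.prod_congr rfl fun j _ => ?_
  unfold Link_s
  cases a.1 j <;> cases c.1 j <;> cases a.2 j <;> cases c.2 j <;> cases w.1 j <;>
    cases w.2 j <;> decide

theorem Link_sum (g : J → Bool → ℤ) : ∑ w : J → Bool, ∏ j, g j (w j) = ∏ j, ∑ b, g j b := by
  rw [Finset.prod_univ_sum, Fintype.piFinset_univ]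

theorem Link_cancel (x y z : Bool) (h : xor x z = xor y z) : x = y := by
  revert h
  cases x <;> cases y <;> cases z <;> decide

theorem Link_two (x y z : Bool) :
    ∑ b : Bool, Link_s (x && xor b z) * Link_s (y && xor b z) = if x = y then 2 else 0 := by
  cases x <;> cases y <;> cases z <;> decide

theorem Link_orth (c a b : (J → Bool) × (J → Bool)) :
    ∑ w, Link_K c a w * Link_K c b w = if a = b then 4 ^ Fintype.card J else 0 := by
  have h1 : ∀ w : (J → Bool) × (J → Bool), Link_K c a w * Link_K c b w =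
      (∏ j, (Link_s ((xor (a.2 j) (c.2 j)) && (xor (w.1 j) (c.1 j))) *
        Link_s ((xor (b.2 j) (c.2 j)) && (xor (w.1 j) (c.1 j))))) *
      ∏ j, (Link_s ((xor (a.1 j) (c.1 j)) && (xor (w.2 j) (c.2 j))) *
        Link_s ((xor (b.1 j) (c.1 j)) && (xor (w.2 j) (c.2 j)))) := by
    intro w
    unfold Link_K
    rw [Finset.prod_mul_distrib, Finset.prod_mul_distrib]
    ring
  rw [Finset.sum_congr rfl fun w _ => h1 w, Fintype.sum_prod_type]
  simp only
  rw [← Finset.sum_mul_sum]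
  rw [Link_sum (fun j t => Link_s ((xor (a.2 j) (c.2 j)) && (xor t (c.1 j))) *
        Link_s ((xor (b.2 j) (c.2 j)) && (xor t (c.1 j)))),
    Link_sum (fun j t => Link_s ((xor (a.1 j) (c.1 j)) && (xor t (c.2 j))) *
        Link_s ((xor (b.1 j) (c.1 j)) && (xor t (c.2 j))))]
  simp only [Link_two]
  split_ifs with hab
  · subst hab
    simp only [if_true, Finset.prod_const, Finset.card_univ]
    rw [← mul_pow]
    norm_num
  · by_cases h2 : a.2 = b.2
    · have h3 : a.1 ≠ b.1 := fun h => hab (Prod.ext h h2)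
      obtain ⟨j, hj⟩ := Function.ne_iff.1 h3
      rw [mul_eq_zero]
      right
      refine Finset.prod_eq_zero (mem_univ j) (if_neg ?_)
      intro h
      exact hj (Link_cancel _ _ _ h)
    · obtain ⟨j, hj⟩ := Function.ne_iff.1 h2
      rw [mul_eq_zero]
      left
      refine Finset.prod_eq_zero (mem_univ j) (if_neg ?_)
      intro h
      exact hj (Link_cancel _ _ _ h)

theorem card_unlinked (L : Finset ((J → Bool) × (J → Bool))) (h : Unlinked PhiL L) :
    L.card ≤ 2 ^ Fintype.card J := by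
  rcases L.eq_empty_or_nonempty with rfl | ⟨c, hc⟩
  · simp
  have he : ∀ a ∈ L, ∀ b ∈ L, Link_e a b = 1 := fun a ha b hb => by
    rw [Link_e_eq, (h a ha b hb).neg_one_pow]
  have hK : ∀ a ∈ L, ∀ b ∈ L, Link_K c a b = 1 := fun a ha b hb => by
    rw [Link_K_eq, he a ha b hb, he a ha c hc, he b hb c hc]; norm_num
  have h1 : ∑ w, (∑ a ∈ L, Link_K c a w) ^ 2 = (L.card : ℤ) * 4 ^ Fintype.card J := by
    have h2 : ∀ w, (∑ a ∈ L, Link_K c a w) ^ 2 =
        ∑ a ∈ L, ∑ b ∈ L, Link_K c a w * Link_K c b w := by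
      intro w
      rw [sq, Finset.sum_mul_sum]
    rw [Finset.sum_congr rfl fun w _ => h2 w, Finset.sum_comm]
    have h3 : ∀ a ∈ L, ∑ w, ∑ b ∈ L, Link_K c a w * Link_K c b w = 4 ^ Fintype.card J := by
      intro a ha
      rw [Finset.sum_comm, Finset.sum_congr rfl fun b _ => Link_orth c a b,
        Finset.sum_ite_eq L a, if_pos ha]
    rw [Finset.sum_congr rfl h3, Finset.sum_const, nsmul_eq_mul]
  have h4 : (L.card : ℤ) * (L.card : ℤ) ^ 2 ≤ ∑ w, (∑ a ∈ L, Link_K c a w) ^ 2 := by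
    have h5 : ∑ w ∈ L, (∑ a ∈ L, Link_K c a w) ^ 2 = (L.card : ℤ) * (L.card : ℤ) ^ 2 := by
      have h6 : ∀ w ∈ L, (∑ a ∈ L, Link_K c a w) ^ 2 = (L.card : ℤ) ^ 2 := by
        intro w hw
        rw [Finset.sum_congr rfl fun a ha => hK a ha w hw, Finset.sum_const, nsmul_eq_mul,
          mul_one]
      rw [Finset.sum_congr rfl h6, Finset.sum_const, nsmul_eq_mul]
    rw [← h5]
    exact Finset.sum_le_sum_of_subset_of_nonneg (Finset.subset_univ _)
      fun w _ _ => sq_nonneg _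
  have h0 : 0 < (L.card : ℤ) := by
    exact_mod_cast Finset.card_pos.2 ⟨c, hc⟩
  have h7 : (L.card : ℤ) ^ 2 ≤ 4 ^ Fintype.card J := by
    rw [h1] at h4
    exact le_of_mul_le_mul_left h4 h0
  have h8 : (L.card : ℤ) ^ 2 ≤ (2 ^ Fintype.card J) ^ 2 := by
    rw [← pow_mul, mul_comm, pow_mul]
    norm_num
    exact h7
  have h9 : (L.card : ℤ) ≤ 2 ^ Fintype.card J :=
    le_of_sq_le_sq h8 (by positivity)
  exact_mod_cast h9

theorem abs_wL_le (S : (J → Bool) → ℕ → Prop) (κ : (J → Bool) → J → ℕ → ℤ)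
    (a : (J → Bool) × (J → Bool)) (r : ℕ) : |wL S κ a r| ≤ (1 / 2 : ℝ) ^ Fintype.card J := by
  classical
  unfold wL
  split_ifs
  · rw [abs_zero]; positivity
  · rw [abs_mul, abs_of_nonneg (by positivity : (0 : ℝ) ≤ (1 / 2) ^ Fintype.card J)]
    refine mul_le_of_le_one_right (by positivity) ?_
    rw [Finset.abs_prod]
    refine Finset.prod_le_one (fun j _ => abs_nonneg _) fun j _ => ?_
    split_ifs
    · unfold sg
      split_ifs <;> simp
    · simp

theorem sum_abs_le (S : (J → Bool) → ℕ → Prop) (κ : (J → Bool) → J → ℕ → ℤ)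
    (L : Finset ((J → Bool) × (J → Bool))) (h : Unlinked PhiL L) (r : ℕ) :
    ∑ a ∈ L, |wL S κ a r| ≤ 1 := by
  calc ∑ a ∈ L, |wL S κ a r| ≤ ∑ a ∈ L, (1 / 2 : ℝ) ^ Fintype.card J :=
        Finset.sum_le_sum fun a _ => abs_wL_le S κ a r
    _ = (L.card : ℝ) * (1 / 2 : ℝ) ^ Fintype.card J := by
        rw [Finset.sum_const, nsmul_eq_mul]
    _ ≤ (2 : ℝ) ^ Fintype.card J * (1 / 2 : ℝ) ^ Fintype.card J := by
        refine mul_le_mul_of_nonneg_right ?_ (by positivity)
        exact_mod_cast card_unlinked L h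
    _ = 1 := by
        rw [← mul_pow]
        norm_num

theorem sum_abs_le_class (S : (J → Bool) → ℕ → Prop)
    (hS : ∀ e, ∃ M a T : ℕ, 0 < M ∧ Nat.Coprime a M ∧
      ∀ r : ℕ, r.Prime → T < r → r % M = a % M → S e r)
    (L : Finset ((J → Bool) × (J → Bool))) (h : Unlinked PhiL L) :
    ∃ M a T : ℕ, 0 < M ∧ Nat.Coprime a M ∧
      ∀ (κ : (J → Bool) → J → ℕ → ℤ) (r : ℕ), r.Prime → T < r → r % M = a % M →
        ∑ a ∈ L, |wL S κ a r| ≤ 1 - (1 / 2 : ℝ) ^ Fintype.card J := by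
  classical
  rcases L.eq_empty_or_nonempty with rfl | ⟨b, hb⟩
  · refine ⟨1, 1, 0, one_pos, Nat.coprime_one_right _, fun κ r _ _ _ => ?_⟩
    rw [Finset.sum_empty, sub_nonneg]
    exact pow_le_one₀ (by norm_num) (by norm_num)
  · obtain ⟨M, a, T, hM, ha, hr⟩ := hS b.1
    refine ⟨M, a, T, hM, ha, fun κ r hp hT hm => ?_⟩
    have h0 : |wL S κ b r| = 0 := by
      unfold wL
      rw [if_pos (hr r hp hT hm), abs_zero]
    rw [← Finset.add_sum_erase L (fun a => |wL S κ a r|) hb, h0, zero_add]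
    have h1 : ∑ a ∈ L.erase b, |wL S κ a r| ≤
        ((L.erase b).card : ℝ) * (1 / 2 : ℝ) ^ Fintype.card J := by
      rw [← nsmul_eq_mul, ← Finset.sum_const]
      exact Finset.sum_le_sum fun a _ => abs_wL_le S κ a r
    refine h1.trans ?_
    have h2 : ((L.erase b).card : ℝ) ≤ (2 : ℝ) ^ Fintype.card J - 1 := by
      have h3 := card_unlinked L h
      have h4 : 0 < L.card := Finset.card_pos.2 ⟨b, hb⟩
      have h5 : (L.erase b).card + 1 = L.card := by
        rw [Finset.card_erase_of_mem hb]; omega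
      have h6 : (((L.erase b).card + 1 : ℕ) : ℝ) ≤ (2 : ℝ) ^ Fintype.card J := by
        rw [h5]; exact_mod_cast h3
      push_cast at h6
      linarith
    have h7 : (2 : ℝ) ^ Fintype.card J * (1 / 2 : ℝ) ^ Fintype.card J = 1 := by
      rw [← mul_pow]
      norm_num
    calc ((L.erase b).card : ℝ) * (1 / 2 : ℝ) ^ Fintype.card J
        ≤ ((2 : ℝ) ^ Fintype.card J - 1) * (1 / 2 : ℝ) ^ Fintype.card J :=
          mul_le_mul_of_nonneg_right h2 (by positivity)
      _ = 1 - (1 / 2 : ℝ) ^ Fintype.card J := by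
          rw [sub_mul, h7, one_mul]

end Pool.Agent.Helper36.TW
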