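import Pool.Agent.Helper36.TW.Defs

/-!
# Project TW (MP_2ae8fe_ag), module Sum: the double sum as a sum over families

`D ↦ ∏ a, D a` maps `Dset Λ N` to the odd squarefree numbers `≤ N`, the fibre over `m` is `fact Λ m`.
-/

set_option autoImplicit false
set_option linter.unusedSectionVars false

namespace Pool.Agent.Helper36.TW

open Finset

variable {Λ : Type} [Fintype Λ] [DecidableEq Λ]

open Classical in
theorem sum_Dset (Ψ : (Λ → ℕ) → ℝ) (N : ℕ) :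
    ∑ m ∈ (Icc 1 N).filter (fun m => Squarefree m ∧ Odd m), ∑ D ∈ fact Λ m, Ψ D =
      ∑ D ∈ Dset Λ N, Ψ D := by
  have hmem : ∀ D : Λ → ℕ, D ∈ Dset Λ N ↔ (∀ a, D a ∈ Icc 1 N) ∧
      Squarefree (∏ a, D a) ∧ Odd (∏ a, D a) ∧ ∏ a, D a ≤ N := by
    intro D
    unfold Dset
    rw [mem_filter, Fintype.mem_piFinset]
  have hmaps : ∀ D ∈ Dset Λ N, ∏ a, D a ∈ (Icc 1 N).filter (fun m => Squarefree m ∧ Odd m) := by
    intro D hD
    obtain ⟨-, h2, h3, h4⟩ := (hmem D).1 hD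
    rw [mem_filter, mem_Icc]
    exact ⟨⟨h3.pos, h4⟩, h2, h3⟩
  rw [← sum_fiberwise_of_maps_to hmaps Ψ]
  refine sum_congr rfl fun m hm => ?_
  rw [mem_filter, mem_Icc] at hm
  obtain ⟨⟨hm1, hmN⟩, hsq, hodd⟩ := hm
  have hm0 : m ≠ 0 := by omega
  refine sum_congr ?_ fun _ _ => rfl
  ext D
  rw [mem_fact hm0, mem_filter, hmem]
  constructor
  · intro h
    refine ⟨⟨fun a => ?_, by rwa [h], by rwa [h], by rwa [h]⟩, h⟩
    have hdvd : D a ∣ m := h ▸ dvd_prod_of_mem D (mem_univ a)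
    rw [mem_Icc]
    exact ⟨Nat.pos_of_dvd_of_pos hdvd (by omega), (Nat.le_of_dvd (by omega) hdvd).trans hmN⟩
  · exact fun h => h.2

theorem sum_large (Ψ : (Λ → ℕ) → ℝ) (N V : ℕ) :
    ∑ D ∈ Dset Λ N, Ψ D =
      ∑ L : Finset Λ, ∑ D ∈ (Dset Λ N).filter (fun D => large V D = L), Ψ D :=
  (sum_fiberwise (Dset Λ N) (fun D => large V D) Ψ).symm

end Pool.Agent.Helper36.TW
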