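import Mathlib

/-!
# Project TW (MP_2ae8fe_ag), module Params2 (every exponent `δ' < δ`): choice of `V = ⌊exp ((log N) ^ ε)⌋`

`ε = min (δ / (2 (K + 1))) (1/2)`, `δ' = δ / 2`... For `N ≥ N₀`: `V ≥ 1`, `V ^ (2 K) ≤ exp (2 K (log N) ^ ε) ≤ N`,
`V ≥ exp ((log N) ^ ε) / 2`, so `V ^ (-1/10) (1 + log N) ^ (K + 3) ≤ (log N) ^ (-δ')` eventually (exponential against
polynomial in `log N`), and `(log N) ^ (-δ) (1 + log V) ^ K ≤ (log N) ^ (-δ) (1 + (log N) ^ ε) ^ K ≤ (log N) ^ (-δ')`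
eventually.
-/

set_option autoImplicit false

namespace Pool.Agent.Helper36.TW

open Filter Topology

theorem params2_ev (K : ℕ) (δ δ' γ ε : ℝ) (hδ : 0 < δ') (hγ : 0 < γ) (hsum : δ = δ' + γ)
    (hε : 0 < ε) (hε2 : ε ≤ 1 / 2) (hεK : ε * K ≤ γ / 2) : ∀ᶠ L : ℝ in atTop, 1 ≤ L ∧ 2 * K * L ^ ε ≤ L ∧
      2 * Real.exp (-(1 / 10) * L ^ ε) * (1 + L) ^ (K + 3) ≤ L ^ (-δ') ∧
      L ^ (-δ) * (1 + L ^ ε) ^ K ≤ L ^ (-δ') := by
  have h1 : ∀ᶠ L : ℝ in atTop, (1 : ℝ) ≤ L := eventually_ge_atTop 1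
  have h2 : ∀ᶠ L : ℝ in atTop, (2 * K : ℝ) ≤ L ^ (1 - ε) :=
    (tendsto_rpow_atTop (by linarith)).eventually_ge_atTop _
  have h3 : ∀ᶠ L : ℝ in atTop, (2 : ℝ) ^ K ≤ L ^ (γ / 2) :=
    (tendsto_rpow_atTop (by linarith)).eventually_ge_atTop _
  have h4 : Tendsto (fun x : ℝ => x ^ (((K : ℝ) + 3 + δ') / ε) * Real.exp (-(1 / 10) * x))
      atTop (𝓝 0) := tendsto_rpow_mul_exp_neg_mul_atTop_nhds_zero _ _ (by norm_num)
  have h5 : Tendsto (fun L : ℝ => (L ^ ε) ^ (((K : ℝ) + 3 + δ') / ε) *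
      Real.exp (-(1 / 10) * L ^ ε)) atTop (𝓝 0) := h4.comp (tendsto_rpow_atTop hε)
  have h6 : ∀ᶠ L : ℝ in atTop, (L ^ ε) ^ (((K : ℝ) + 3 + δ') / ε) *
      Real.exp (-(1 / 10) * L ^ ε) < 1 / 2 ^ (K + 4) :=
    h5.eventually (gt_mem_nhds (by positivity))
  filter_upwards [h1, h2, h3, h6] with L h1 h2 h3 h6
  have hL0 : 0 < L := by linarith
  refine ⟨h1, ?_, ?_, ?_⟩
  · have e : L = L ^ (1 - ε) * L ^ ε := by
      rw [← Real.rpow_add hL0]; simp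
    calc 2 * K * L ^ ε ≤ L ^ (1 - ε) * L ^ ε :=
          mul_le_mul_of_nonneg_right h2 (Real.rpow_nonneg hL0.le _)
      _ = L := e.symm
  · have e1 : (L ^ ε) ^ (((K : ℝ) + 3 + δ') / ε) = L ^ (K + 3) * L ^ δ' := by
      rw [← Real.rpow_mul hL0.le, mul_div_cancel₀ _ hε.ne', Real.rpow_add hL0]
      congr 1
      rw [← Real.rpow_natCast]
      push_cast
      rfl
    rw [e1] at h6
    have e2 : (1 + L) ^ (K + 3) ≤ 2 ^ (K + 3) * L ^ (K + 3) := by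
      rw [← mul_pow]
      exact pow_le_pow_left₀ (by linarith) (by linarith) _
    have hp : 0 < L ^ δ' := Real.rpow_pos_of_pos hL0 _
    have hE : 0 < Real.exp (-(1 / 10) * L ^ ε) := Real.exp_pos _
    rw [Real.rpow_neg hL0.le, ← one_div, le_div_iff₀ hp]
    have h7 : 2 * Real.exp (-(1 / 10) * L ^ ε) * (1 + L) ^ (K + 3) * L ^ δ' ≤
        2 ^ (K + 4) * (L ^ (K + 3) * L ^ δ' * Real.exp (-(1 / 10) * L ^ ε)) := by
      have : 2 * Real.exp (-(1 / 10) * L ^ ε) * (1 + L) ^ (K + 3) * L ^ δ' ≤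
          2 * Real.exp (-(1 / 10) * L ^ ε) * (2 ^ (K + 3) * L ^ (K + 3)) * L ^ δ' := by
        gcongr
      refine this.trans (le_of_eq ?_)
      ring
    have h8 : (2 : ℝ) ^ (K + 4) * (L ^ (K + 3) * L ^ δ' * Real.exp (-(1 / 10) * L ^ ε)) ≤
        2 ^ (K + 4) * (1 / 2 ^ (K + 4)) := by
      apply mul_le_mul_of_nonneg_left h6.le (by positivity)
    have h9 : (2 : ℝ) ^ (K + 4) * (1 / 2 ^ (K + 4)) = 1 := by field_simp
    linarith
  · have hLe : 1 ≤ L ^ ε := Real.one_le_rpow h1 hε.le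
    have e2 : (1 + L ^ ε) ^ K ≤ 2 ^ K * L ^ (ε * K) := by
      rw [Real.rpow_mul hL0.le, Real.rpow_natCast, ← mul_pow]
      exact pow_le_pow_left₀ (by linarith) (by linarith) _
    have e3 : L ^ (ε * K) ≤ L ^ (γ / 2) := Real.rpow_le_rpow_of_exponent_le h1 hεK
    calc L ^ (-δ) * (1 + L ^ ε) ^ K ≤ L ^ (-δ) * (L ^ (γ / 2) * L ^ (γ / 2)) := by
          apply mul_le_mul_of_nonneg_left _ (Real.rpow_nonneg hL0.le _)
          refine e2.trans ?_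
          exact mul_le_mul h3 e3 (Real.rpow_nonneg hL0.le _) (Real.rpow_nonneg hL0.le _)
      _ = L ^ (-δ') := by
          rw [← Real.rpow_add hL0, ← Real.rpow_add hL0, hsum]
          congr 1
          ring

theorem params2 (K : ℕ) (δ δ' : ℝ) (hδ : 0 < δ') (hlt : δ' < δ) : ∃ N₀ : ℕ, 16 ≤ N₀ ∧
    ∀ N : ℕ, N₀ ≤ N → ∃ V : ℕ, 1 ≤ V ∧ V ^ (2 * K) ≤ N ∧
      (V : ℝ) ^ (-(1 / 10 : ℝ)) * (1 + Real.log N) ^ (K + 3) ≤ (Real.log N) ^ (-δ') ∧
      (Real.log N) ^ (-δ) * (1 + Real.log V) ^ K ≤ (Real.log N) ^ (-δ') := by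
  obtain ⟨ε, hε, hε2, hεK⟩ : ∃ ε : ℝ, 0 < ε ∧ ε ≤ 1 / 2 ∧ ε * K ≤ (δ - δ') / 2 := by
    have hg : 0 < δ - δ' := by linarith
    refine ⟨min ((δ - δ') / (2 * (K + 1))) (1 / 2), by positivity, min_le_right _ _, ?_⟩
    have hK : (0 : ℝ) ≤ K := Nat.cast_nonneg K
    calc min ((δ - δ') / (2 * (K + 1))) (1 / 2) * K ≤ (δ - δ') / (2 * (K + 1)) * K := by
          gcongr
          exact min_le_left _ _
      _ ≤ (δ - δ') / (2 * (K + 1)) * (K + 1) := by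
          apply mul_le_mul_of_nonneg_left (by linarith) (by positivity)
      _ = (δ - δ') / 2 := by field_simp
  have hev := params2_ev K δ δ' (δ - δ') ε hδ (by linarith) (by ring) hε hε2 hεK
  have hlog : Tendsto (fun N : ℕ => Real.log (N : ℝ)) atTop atTop :=
    Real.tendsto_log_atTop.comp tendsto_natCast_atTop_atTop
  have hev2 := hlog.eventually hev
  obtain ⟨N₁, hN₁⟩ := eventually_atTop.1 hev2
  refine ⟨max N₁ 16, le_max_right _ _, ?_⟩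
  intro N hN
  obtain ⟨hL, hA, hB, hC⟩ := hN₁ N ((le_max_left _ _).trans hN)
  have hN16 : 16 ≤ N := (le_max_right _ _).trans hN
  have hNpos : (0 : ℝ) < N := by
    have : (0 : ℕ) < N := by omega
    exact_mod_cast this
  set L : ℝ := Real.log N with hLdef
  have hL0 : 0 < L := by linarith
  have hLe : 0 ≤ L ^ ε := Real.rpow_nonneg hL0.le _
  have hexp1 : (1 : ℝ) ≤ Real.exp (L ^ ε) := Real.one_le_exp hLe
  set V : ℕ := ⌊Real.exp (L ^ ε)⌋₊ with hVdef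
  have hV1 : 1 ≤ V := (Nat.one_le_floor_iff _).2 hexp1
  have hV1' : (1 : ℝ) ≤ (V : ℝ) := by exact_mod_cast hV1
  have hVpos : (0 : ℝ) < (V : ℝ) := by linarith
  have hVle : (V : ℝ) ≤ Real.exp (L ^ ε) := Nat.floor_le (Real.exp_pos _).le
  have hVge : Real.exp (L ^ ε) / 2 ≤ (V : ℝ) := by
    have := Nat.lt_floor_add_one (Real.exp (L ^ ε))
    rw [← hVdef] at this
    linarith
  refine ⟨V, hV1, ?_, ?_, ?_⟩
  · have h1 : ((V ^ (2 * K) : ℕ) : ℝ) ≤ (N : ℝ) := by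
      push_cast
      calc (V : ℝ) ^ (2 * K) ≤ (Real.exp (L ^ ε)) ^ (2 * K) :=
            pow_le_pow_left₀ hVpos.le hVle _
        _ = Real.exp (2 * K * L ^ ε) := by
            rw [← Real.exp_nat_mul]
            push_cast
            rfl
        _ ≤ Real.exp L := Real.exp_le_exp.2 hA
        _ = N := Real.exp_log hNpos
    exact_mod_cast h1
  · have h1 : (V : ℝ) ^ (-(1 / 10 : ℝ)) ≤ 2 * Real.exp (-(1 / 10) * L ^ ε) := by
      have h2 : (V : ℝ) ^ (-(1 / 10 : ℝ)) ≤ (Real.exp (L ^ ε) / 2) ^ (-(1 / 10 : ℝ)) :=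
        Real.rpow_le_rpow_of_nonpos (by positivity) hVge (by norm_num)
      refine h2.trans ?_
      rw [Real.div_rpow (Real.exp_pos _).le (by norm_num), ← Real.exp_mul]
      rw [Real.rpow_neg (by norm_num : (0 : ℝ) ≤ 2), div_inv_eq_mul, mul_comm]
      have e1 : L ^ ε * -(1 / 10) = -(1 / 10) * L ^ ε := by ring
      rw [e1]
      apply mul_le_mul_of_nonneg_right _ (Real.exp_pos _).le
      calc (2 : ℝ) ^ (1 / 10 : ℝ) ≤ 2 ^ (1 : ℝ) :=
            Real.rpow_le_rpow_of_exponent_le (by norm_num) (by norm_num)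
        _ = 2 := by norm_num
    calc (V : ℝ) ^ (-(1 / 10 : ℝ)) * (1 + L) ^ (K + 3) ≤
          2 * Real.exp (-(1 / 10) * L ^ ε) * (1 + L) ^ (K + 3) :=
          mul_le_mul_of_nonneg_right h1 (by positivity)
      _ ≤ L ^ (-δ') := hB
  · have h1 : Real.log V ≤ L ^ ε := by
      rw [← Real.log_exp (L ^ ε)]
      exact Real.log_le_log hVpos hVle
    have h2 : 0 ≤ Real.log V := Real.log_nonneg hV1'
    calc L ^ (-δ) * (1 + Real.log V) ^ K ≤ L ^ (-δ) * (1 + L ^ ε) ^ K := by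
          apply mul_le_mul_of_nonneg_left _ (Real.rpow_nonneg hL0.le _)
          exact pow_le_pow_left₀ (by linarith) (by linarith) _
      _ ≤ L ^ (-δ') := hC

end Pool.Agent.Helper36.TW
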