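import Pool.Agent.Helper36.TW.Expand

/-!
# Project TW (MP_2ae8fe_ag), module Pos: positivity

Labels `Λ = V × V`, `V = J → Bool`. By `sum_term` the sum is over `α : P → V × V`, `P = m.primeFactors`; write
`α = (τ, φ)` (`Equiv.arrowProdEquivProdArrow`). The summand is
`∏ s, w (τ s, φ s) s * ∏ s, ∏ r, jac r s ^ #{j | φ s j ∧ τ r j ≠ τ s j}`
`= ∏ s, [¬ S (τ s) s] 2 ^ (-#J) ∏ j, if φ s j then sg κ (τ s) j s * (∏ r with τ r j ≠ τ s j, jac r s) else 1`
and the sum over `φ` for fixed `τ` is (`Finset.prod_univ_sum` twice; or `Finset.prod_add`)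
`∏ s, [¬ S (τ s) s] ∏ j, (1 + sg κ (τ s) j s * jac (∏ r with τ r j ≠ τ s j, r) s) / 2`.
All factors are `≥ 0` (`sg` and `jac` lie in `{-1, 0, 1}`): `pos`. For `τ` given by `D` (`D = ofLab τ`; every prime of
`m` divides exactly one `D e`) all factors are `1`: `ge_one`.
-/

set_option autoImplicit false
set_option linter.unusedSectionVars false

namespace Pool.Agent.Helper36.TW

open Finset

variable {J : Type} [Fintype J] [DecidableEq J]

/-- the sign of the label `τ` at the place `s` and the index `j`, times the Jacobi symbol -/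
private noncomputable def Pos_A (κ : (J → Bool) → J → ℕ → ℤ) {m : ℕ}
    (τ : m.primeFactors → (J → Bool)) (s : m.primeFactors) (j : J) : ℝ :=
  sg κ (τ s) j s * ∏ r : m.primeFactors, if τ r j ≠ τ s j then jac r s else 1

open Classical in
/-- the constant part of the weight -/
private noncomputable def Pos_c (S : (J → Bool) → ℕ → Prop) {m : ℕ}
    (τ : m.primeFactors → (J → Bool)) (s : m.primeFactors) : ℝ :=
  if S (τ s) s then 0 else (1 / 2 : ℝ) ^ Fintype.card J

private theorem Pos_factor (S : (J → Bool) → ℕ → Prop) (κ : (J → Bool) → J → ℕ → ℤ) {m : ℕ}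
    (τ φ : m.primeFactors → (J → Bool)) (s : m.primeFactors) :
    wL S κ (τ s, φ s) s * ∏ r : m.primeFactors, jac r s ^ PhiL (τ r, φ r) (τ s, φ s) =
      Pos_c S τ s * ∏ j, if φ s j then Pos_A κ τ s j else 1 := by
  have h1 : ∀ r : m.primeFactors, jac r s ^ PhiL (τ r, φ r) (τ s, φ s) =
      ∏ j : J, if (φ s j = true ∧ τ r j ≠ τ s j) then jac r s else 1 := by
    intro r
    unfold PhiL
    rw [← Finset.prod_const, Finset.prod_filter]
  rw [Finset.prod_congr rfl fun r _ => h1 r, Finset.prod_comm]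
  unfold wL Pos_c
  by_cases hS : S (τ s) s
  · simp [hS]
  · simp only [hS, if_false]
    rw [mul_assoc, ← Finset.prod_mul_distrib]
    congr 1
    refine Finset.prod_congr rfl fun j _ => ?_
    unfold Pos_A
    by_cases hj : φ s j = true
    · simp [hj]
    · simp [hj]

private theorem Pos_sum_eq (S : (J → Bool) → ℕ → Prop) (κ : (J → Bool) → J → ℕ → ℤ) {m : ℕ}
    (hm : Squarefree m) :
    ∑ D ∈ fact ((J → Bool) × (J → Bool)) m, term PhiL (wL S κ) D =
      ∑ τ : m.primeFactors → (J → Bool), ∏ s : m.primeFactors,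
        (Pos_c S τ s * ∏ j, (1 + Pos_A κ τ s j)) := by
  rw [sum_term hm]
  rw [← (Equiv.arrowProdEquivProdArrow m.primeFactors (fun _ => J → Bool)
    (fun _ => J → Bool)).symm.sum_comp, Fintype.sum_prod_type]
  refine Finset.sum_congr rfl fun τ _ => ?_
  have h1 : ∀ s : m.primeFactors, Pos_c S τ s * ∏ j, (1 + Pos_A κ τ s j) =
      ∑ f : J → Bool, Pos_c S τ s * ∏ j, (if f j then Pos_A κ τ s j else 1) := by
    intro s
    rw [← Finset.mul_sum]
    congr 1
    have h2 : ∀ j : J, 1 + Pos_A κ τ s j = ∑ b : Bool, if b then Pos_A κ τ s j else 1 := by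
      intro j
      rw [Fintype.sum_bool]
      simp [add_comm]
    rw [Finset.prod_congr rfl fun j _ => h2 j, Finset.prod_univ_sum, Fintype.piFinset_univ]
  rw [Finset.prod_congr rfl fun s _ => h1 s, Finset.prod_univ_sum, Fintype.piFinset_univ]
  refine Finset.sum_congr rfl fun φ _ => ?_
  rw [Finset.prod_congr rfl fun s _ => (Pos_factor S κ τ φ s).symm, Finset.prod_mul_distrib]
  congr 1
  exact Finset.prod_comm

private theorem Pos_abs_A (κ : (J → Bool) → J → ℕ → ℤ) {m : ℕ}
    (τ : m.primeFactors → (J → Bool)) (s : m.primeFactors) (j : J) : |Pos_A κ τ s j| ≤ 1 := by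
  unfold Pos_A
  rw [abs_mul, Finset.abs_prod]
  have h1 : |sg κ (τ s) j s| ≤ 1 := by
    unfold sg
    split_ifs <;> simp
  have h2 : ∏ r : m.primeFactors, |(if τ r j ≠ τ s j then jac r s else 1 : ℝ)| ≤ 1 := by
    refine Finset.prod_le_one (fun r _ => abs_nonneg _) fun r _ => ?_
    split_ifs
    · exact abs_jac_le _ _
    · simp
  exact mul_le_one₀ h1 (Finset.prod_nonneg fun r _ => abs_nonneg _) h2

private theorem Pos_prod_nonneg (S : (J → Bool) → ℕ → Prop) (κ : (J → Bool) → J → ℕ → ℤ) {m : ℕ}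
    (τ : m.primeFactors → (J → Bool)) :
    0 ≤ ∏ s : m.primeFactors, (Pos_c S τ s * ∏ j, (1 + Pos_A κ τ s j)) := by
  refine Finset.prod_nonneg fun s _ => mul_nonneg ?_ (Finset.prod_nonneg fun j _ => ?_)
  · unfold Pos_c
    split_ifs
    · exact le_refl _
    · positivity
  · have := (abs_le.1 (Pos_abs_A κ τ s j)).1
    linarith

private theorem Pos_exists_lab {Λ : Type} [Fintype Λ] [DecidableEq Λ] {m : ℕ} (hm : Squarefree m)
    (D : Λ → ℕ) (hD : ∏ e, D e = m) : ∃ τ : m.primeFactors → Λ, ofLab τ = D := by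
  classical
  by_contra hne
  have h1 := sum_fact (Λ := Λ) hm (fun F => if F = D then (1 : ℝ) else 0)
  have h2 : ∑ τ : m.primeFactors → Λ, (if ofLab τ = D then (1 : ℝ) else 0) = 0 := by
    refine Finset.sum_eq_zero fun τ _ => ?_
    rw [if_neg]
    intro h
    exact hne ⟨τ, h⟩
  rw [h2, Finset.sum_ite_eq' (fact Λ m) D (fun _ => (1 : ℝ)), if_pos ((mem_fact hm.ne_zero).2 hD)]
    at h1
  exact one_ne_zero h1

private theorem Pos_jac_prod {ι : Type} (T : Finset ι) (f : ι → ℕ) (s : ℕ) :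
    jac (∏ i ∈ T, f i) s = ∏ i ∈ T, jac (f i) s := by
  classical
  induction T using Finset.induction_on with
  | empty => simp [jac, jacobiSym.one_left]
  | insert a T ha ih =>
    rw [Finset.prod_insert ha, Finset.prod_insert ha, ← ih]
    unfold jac
    push_cast
    rw [jacobiSym.mul_left]
    push_cast
    rfl

private theorem Pos_prod_eq {m : ℕ} (τ : m.primeFactors → (J → Bool)) (s : m.primeFactors) (j : J) :
    (∏ r : m.primeFactors, if τ r j ≠ τ s j then jac r s else 1) =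
      jac (∏ e' ∈ univ.filter (fun e' : J → Bool => e' j ≠ τ s j), ofLab τ e') s := by
  have h1 : ∏ e' ∈ univ.filter (fun e' : J → Bool => e' j ≠ τ s j), ofLab τ e' =
      ∏ r : m.primeFactors, if τ r j ≠ τ s j then (r : ℕ) else 1 := by
    unfold ofLab
    rw [Finset.prod_comm]
    refine Finset.prod_congr rfl fun r _ => ?_
    rw [Finset.prod_ite_eq]
    simp
  rw [h1, Pos_jac_prod]
  refine Finset.prod_congr rfl fun r _ => ?_
  split_ifs
  · rfl
  · simp [jac, jacobiSym.one_left]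

theorem pos (S : (J → Bool) → ℕ → Prop) (κ : (J → Bool) → J → ℕ → ℤ) {m : ℕ}
    (hm : Squarefree m) :
    0 ≤ ∑ D ∈ fact ((J → Bool) × (J → Bool)) m, term PhiL (wL S κ) D := by
  rw [Pos_sum_eq S κ hm]
  exact Finset.sum_nonneg fun τ _ => Pos_prod_nonneg S κ τ

theorem ge_one (S : (J → Bool) → ℕ → Prop) (κ : (J → Bool) → J → ℕ → ℤ) {m : ℕ}
    (hm : Squarefree m) (D : (J → Bool) → ℕ) (hD : ∏ e, D e = m)
    (h : ∀ e, ∀ r : ℕ, r.Prime → r ∣ D e → ¬ S e r ∧ ∀ j : J, κ e j r ≠ 0 ∧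
      jacobiSym ((∏ e' ∈ univ.filter (fun e' : J → Bool => e' j ≠ e j), D e' : ℕ) : ℤ) r =
        κ e j r) :
    1 ≤ ∑ D ∈ fact ((J → Bool) × (J → Bool)) m, term PhiL (wL S κ) D := by
  rw [Pos_sum_eq S κ hm]
  obtain ⟨τ, rfl⟩ := Pos_exists_lab hm D hD
  have h1 : ∏ s : m.primeFactors, (Pos_c S τ s * ∏ j, (1 + Pos_A κ τ s j)) = 1 := by
    refine Finset.prod_eq_one fun s _ => ?_
    obtain ⟨hS, hk⟩ := h (τ s) s (Nat.prime_of_mem_primeFactors s.2) ((dvd_ofLab τ (τ s) s).2 rfl)
    have h2 : ∀ j : J, 1 + Pos_A κ τ s j = 2 := by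
      intro j
      obtain ⟨hk0, hkj⟩ := hk j
      have h3 : Pos_A κ τ s j = 1 := by
        unfold Pos_A
        rw [Pos_prod_eq]
        unfold jac sg
        rw [hkj]
        rcases jacobiSym.trichotomy
          ((∏ e' ∈ univ.filter (fun e' : J → Bool => e' j ≠ τ s j), ofLab τ e' : ℕ) : ℤ) (s : ℕ)
          with h4 | h4 | h4
        · exact absurd (hkj.symm.trans h4) hk0
        · rw [← hkj, h4]; norm_num
        · rw [← hkj, h4]; norm_num
      rw [h3]; norm_num
    rw [Finset.prod_congr rfl fun j _ => h2 j]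
    unfold Pos_c
    rw [if_neg hS, Finset.prod_const, Finset.card_univ, ← mul_pow]
    norm_num
  refine h1.symm.le.trans ?_
  exact Finset.single_le_sum (f := fun τ : m.primeFactors → (J → Bool) =>
    ∏ s : m.primeFactors, (Pos_c S τ s * ∏ j, (1 + Pos_A κ τ s j)))
    (fun τ _ => Pos_prod_nonneg S κ τ) (mem_univ τ)

end Pool.Agent.Helper36.TW
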