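import Pool.Agent.Helper36.TW.Defs

/-!
# Project TW (MP_2ae8fe_ag), module Split: two variables of the summand

`D = update (update R a x) b y`, `R a = R b = 1`. Bimultiplicativity: with `B D D' = ∏ c, ∏ c', jac (D c) (D' c') ^ Φ c c'`
and `D = R * δ_a x * δ_b y` (pointwise) one has nine factors; `B (δ_a x) (δ_a x) = jac x x ^ Φ a a = 1`,
`B (δ_a x) (δ_b y) = jac x y ^ Φ a b`, and so on. `f x = W w a x * B R (δ_a x) * B (δ_a x) R`,
`K = (∏ c with c ≠ a, b, W w c (R c)) * B R R`. (Or split the products over `c`, `c'` with `Finset.prod_erase_mul`.)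
No coprimality is used; absolute values: `|w| ≤ 1`, `abs_jac_le`.
-/

set_option autoImplicit false
set_option linter.unusedSectionVars false

namespace Pool.Agent.Helper36.TW

open Finset

variable {Λ : Type} [Fintype Λ] [DecidableEq Λ]

theorem abs_W_le {w : Λ → ℕ → ℝ} (hw : ∀ a r, |w a r| ≤ 1) (a : Λ) (m : ℕ) : |W w a m| ≤ 1 := by
  unfold W
  rw [Finset.abs_prod]
  exact Finset.prod_le_one (fun _ _ => abs_nonneg _) fun r _ => hw a r

theorem abs_term_le {w : Λ → ℕ → ℝ} (Φ : Λ → Λ → ℕ) (D : Λ → ℕ) :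
    |term Φ w D| ≤ ∏ a, |W w a (D a)| := by
  unfold term
  rw [abs_mul, Finset.abs_prod, Finset.abs_prod]
  have h : ∏ a, |∏ b, jac (D a) (D b) ^ Φ a b| ≤ 1 := by
    refine Finset.prod_le_one (fun _ _ => abs_nonneg _) fun a _ => ?_
    rw [Finset.abs_prod]
    refine Finset.prod_le_one (fun _ _ => abs_nonneg _) fun b _ => ?_
    rw [abs_pow]
    exact pow_le_one₀ (abs_nonneg _) (abs_jac_le _ _)
  have h0 : 0 ≤ ∏ a, |W w a (D a)| := Finset.prod_nonneg fun _ _ => abs_nonneg _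
  nlinarith

private theorem Split_prod (h : Λ → ℝ) {a b : Λ} (hab : a ≠ b) :
    ∏ c, h c = h a * (h b * ∏ c ∈ (univ.erase a).erase b, h c) := by
  rw [← Finset.mul_prod_erase univ h (mem_univ a),
    ← Finset.mul_prod_erase (univ.erase a) h (mem_erase.mpr ⟨hab.symm, mem_univ b⟩)]

private theorem Split_abs_prod (s : Finset Λ) (h : Λ → ℝ) (hh : ∀ c ∈ s, |h c| ≤ 1) :
    |∏ c ∈ s, h c| ≤ 1 := by
  rw [Finset.abs_prod]
  exact Finset.prod_le_one (fun _ _ => abs_nonneg _) hh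

private theorem Split_abs_mul {x y : ℝ} (hx : |x| ≤ 1) (hy : |y| ≤ 1) : |x * y| ≤ 1 := by
  rw [abs_mul]
  exact mul_le_one₀ hx (abs_nonneg _) hy

private theorem Split_abs_jac (x y e : ℕ) : |jac x y ^ e| ≤ 1 := by
  rw [abs_pow]
  exact pow_le_one₀ (abs_nonneg _) (abs_jac_le _ _)

theorem split (Φ : Λ → Λ → ℕ) (hΦ : ∀ a, Φ a a = 0) {w : Λ → ℕ → ℝ} (hw : ∀ a r, |w a r| ≤ 1)
    {a b : Λ} (hab : a ≠ b) (R : Λ → ℕ) (hRa : R a = 1) (hRb : R b = 1) (hR : ∀ c, R c ≠ 0) :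
    ∃ (K : ℝ) (f g : ℕ → ℝ), |K| ≤ 1 ∧ (∀ x, |f x| ≤ 1) ∧ (∀ y, |g y| ≤ 1) ∧
      ∀ x y : ℕ, x ≠ 0 → y ≠ 0 →
        term Φ w (Function.update (Function.update R a x) b y) =
          K * f x * g y * (jac x y ^ Φ a b * jac y x ^ Φ b a) := by
  set O : Finset Λ := (univ.erase a).erase b with hO
  have hOb : ∀ c ∈ O, c ≠ b := fun c hc => (mem_erase.mp hc).1
  have hOa : ∀ c ∈ O, c ≠ a := fun c hc => (mem_erase.mp (mem_erase.mp hc).2).1
  refine ⟨(∏ c ∈ O, W w c (R c)) * ∏ c ∈ O, ∏ c' ∈ O, jac (R c) (R c') ^ Φ c c',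
    fun x => W w a x * ((∏ c ∈ O, jac x (R c) ^ Φ a c) * ∏ c ∈ O, jac (R c) x ^ Φ c a),
    fun y => W w b y * ((∏ c ∈ O, jac y (R c) ^ Φ b c) * ∏ c ∈ O, jac (R c) y ^ Φ c b),
    ?_, ?_, ?_, ?_⟩
  · refine Split_abs_mul (Split_abs_prod _ _ fun c _ => abs_W_le hw _ _) ?_
    exact Split_abs_prod _ _ fun c _ => Split_abs_prod _ _ fun c' _ => Split_abs_jac _ _ _
  · intro x
    refine Split_abs_mul (abs_W_le hw _ _) (Split_abs_mul ?_ ?_)
    · exact Split_abs_prod _ _ fun c _ => Split_abs_jac _ _ _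
    · exact Split_abs_prod _ _ fun c _ => Split_abs_jac _ _ _
  · intro y
    refine Split_abs_mul (abs_W_le hw _ _) (Split_abs_mul ?_ ?_)
    · exact Split_abs_prod _ _ fun c _ => Split_abs_jac _ _ _
    · exact Split_abs_prod _ _ fun c _ => Split_abs_jac _ _ _
  · intro x y _ _
    set D := Function.update (Function.update R a x) b y with hD
    have hDb : D b = y := by rw [hD, Function.update_self]
    have hDa : D a = x := by
      rw [hD, Function.update_of_ne hab, Function.update_self]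
    have hDc : ∀ c ∈ O, D c = R c := by
      intro c hc
      rw [hD, Function.update_of_ne (hOb c hc), Function.update_of_ne (hOa c hc)]
    have h1 : ∏ c, W w c (D c) = W w a x * (W w b y * ∏ c ∈ O, W w c (R c)) := by
      rw [Split_prod _ hab, hDa, hDb]
      congr 2
      exact Finset.prod_congr rfl fun c hc => by rw [hDc c hc]
    have h2 : ∏ c', jac (D a) (D c') ^ Φ a c' =
        jac x y ^ Φ a b * ∏ c ∈ O, jac x (R c) ^ Φ a c := by
      rw [Split_prod _ hab, hΦ a, pow_zero, one_mul, hDa, hDb]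
      congr 1
      exact Finset.prod_congr rfl fun c hc => by rw [hDc c hc]
    have h3 : ∏ c', jac (D b) (D c') ^ Φ b c' =
        jac y x ^ Φ b a * ∏ c ∈ O, jac y (R c) ^ Φ b c := by
      rw [Split_prod _ hab, hΦ b, pow_zero, one_mul, hDa, hDb]
      congr 1
      exact Finset.prod_congr rfl fun c hc => by rw [hDc c hc]
    have h4 : ∀ c ∈ O, ∏ c', jac (D c) (D c') ^ Φ c c' =
        jac (R c) x ^ Φ c a * (jac (R c) y ^ Φ c b * ∏ c' ∈ O, jac (R c) (R c') ^ Φ c c') := by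
      intro c hc
      rw [Split_prod _ hab, hDa, hDb, hDc c hc]
      congr 2
      exact Finset.prod_congr rfl fun c' hc' => by rw [hDc c' hc']
    unfold term
    rw [h1, Split_prod (fun c => ∏ c', jac (D c) (D c') ^ Φ c c') hab, h2, h3,
      Finset.prod_congr rfl h4, Finset.prod_mul_distrib, Finset.prod_mul_distrib]
    ring

end Pool.Agent.Helper36.TW
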